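import Pool.Agent.Lib.MP_5c318e_ag.W.FibLift

/-! Finite charts are connected and not empty. -/

set_option autoImplicit false

namespace Pool.Agent.Lib.MP_5c318e_ag

open MeasureTheory Set Filter Topology

variable {ι K : Type} [Fintype ι] [DecidableEq ι] [Field K] [Algebra ℂ K]

theorem Cht.eq_zero (c : Cht ι K) {φ : c.O} (h : ∀ p : Pt c.O, p φ = 0) : φ = 0 :=
  Ideal.mem_bot.1 (FibRed.mem_of_vanish (I := ⊥) Ideal.isPrime_bot.isRadical fun p _ => h p)

theorem Cht.nonempty (c : Cht ι K) : Nonempty (Pt c.O) :=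
  (Pt.exists_zero (O := c.O) (I := ⊥) bot_ne_top).nonempty

theorem Cht.preconnected (c : Cht ι K) (h : Fini (Algebra.ofId ℂ c.O) c.z) :
    PreconnectedSpace (Pt c.O) := by
  classical
  refine preconnectedSpace_iff_clopen.2 fun s hs => ?_
  have lc : IsLocallyConstant (s.indicator (1 : Pt c.O → ℂ)) :=
    (LocallyConstant.charFn ℂ hs).isLocallyConstant
  obtain ⟨ψ, hψ⟩ := c.ratpoly h 1 (u := s.indicator 1) (fun p _ =>
    (differentiableAt_const (s.indicator 1 p)).congr_of_eventuallyEq
      ((c.D.tendsto_sec p).eventually (lc.eventually_eq p))) (A := 1) (L := 0) fun p _ => by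
      by_cases hp : p ∈ s <;> simp [hp]
  have h1 : ψ * (ψ - 1) = 0 := c.eq_zero fun p => by
    rw [map_mul, map_sub, map_one, ← hψ p (by simp)]
    by_cases hp : p ∈ s <;> simp [hp]
  rcases mul_eq_zero.1 h1 with h2 | h2
  · refine Or.inl (eq_empty_of_forall_notMem fun p hp => ?_)
    simpa [hp, h2] using hψ p (by simp)
  · refine Or.inr (eq_univ_of_forall fun p => by_contra fun hp => ?_)
    simpa [hp, sub_eq_zero.1 h2] using hψ p (by simp)

end Pool.Agent.Lib.MP_5c318e_ag
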