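import Pool.Agent.Lib.MP_5c318e_ag.RD.RMeas
import Pool.Agent.Lib.MP_9ff3e7_ag.F.Osg

/-! Singular weights on a Riemann domain: limits from above of `exp` of smooth plurisubharmonic
functions. -/

set_option autoImplicit false
set_option linter.unusedSectionVars false

namespace Pool.Agent.Lib.MP_5c318e_ag

open MeasureTheory Set Filter Topology Complex
open scoped ContDiff
open Pool.Agent.Lib.MP_9ff3e7_ag

noncomputable section

namespace RD

variable {ι : Type} [Fintype ι] {S : Type} [TopologicalSpace S] [MeasurableSpace S] (D : RD ι S)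

/-- `om` is a limit from above of functions `exp φ`, `φ` smooth and plurisubharmonic -/
def LP (om : S → ℝ) : Prop :=
  ∃ φ : ℕ → S → ℝ, (∀ k, D.Psh (φ k)) ∧ (∀ k x, φ k x ≤ φ 0 x) ∧
    (∀ k x, om x ≤ Real.exp (φ k x)) ∧
    ∀ x, Tendsto (fun k => Real.exp (φ k x)) atTop (𝓝 (om x))

/-- the estimate of Hoermander with singular weights holds on `D` -/
def HL : Prop :=
  ∀ (φ : ℕ → S → ℝ) (om : S → ℝ) (f : S → ℂ) (h : ℕ → S → ℝ) (C : ENNReal),
    (∀ k, D.Psh (φ k)) → (∀ k x, φ k x ≤ φ 0 x) →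
    (∀ x, Tendsto (fun k => Real.exp (φ k x)) atTop (𝓝 (om x))) → D.Sm f →
    (∀ k, Measurable (h k)) → (∀ k x, 0 ≤ h k x) →
    (∀ k x ξ, ‖D.dbar f x ξ‖ ^ 2 ≤ h k x * D.levi (φ k) x ξ) →
    (∀ k, ∫⁻ x, ENNReal.ofReal (h k x * Real.exp (-φ k x)) ∂D.μ ≤ C) → C ≠ ⊤ →
    ∃ F : S → ℂ, D.Hol F ∧
      ∫⁻ x, ENNReal.ofReal (‖F x - f x‖ ^ 2) * (ENNReal.ofReal (om x))⁻¹ ∂D.μ ≤ C

variable {D}

namespace WP

theorem ana {f : S → ℂ} (hf : D.Hol f) (x : S) :
    AnalyticAt ℂ (fun z => f (D.sec x z)) (D.π x) :=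
  F.osgood (D.ch x).open_target (fun _ hz => (hf.at hz).differentiableWithinAt) _ (D.mem_tgt x)

theorem ana_on {f : S → ℂ} {T : Set S} (hT : IsOpen T)
    (hf : ∀ x ∈ T, DifferentiableAt ℂ (fun z => f (D.sec x z)) (D.π x)) {x : S} (hx : x ∈ T) :
    AnalyticAt ℂ (fun z => f (D.sec x z)) (D.π x) := by
  have ho : IsOpen ((D.ch x).target ∩ D.sec x ⁻¹' T) :=
    (D.sec_contOn x).isOpen_inter_preimage (D.ch x).open_target hT
  refine F.osgood ho (fun z hz => ?_) _ ⟨D.mem_tgt x, by simpa [D.sec_self] using hx⟩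
  have := hf _ hz.2
  rw [π_sec hz.1] at this
  exact (this.congr_of_eventuallyEq (germ_f f hz.1)).differentiableWithinAt

theorem hol_sm {f : S → ℂ} (hf : D.Hol f) : D.Sm f := fun x =>
  ((ana hf x).contDiffAt (n := ∞)).restrict_scalars ℝ

theorem hol_coord (i : ι) (c : ℂ) : D.Hol fun x => D.π x i - c := fun x => by
  have : (fun z => D.π (D.sec x z) i - c) =ᶠ[𝓝 (D.π x)] fun z => z i - c :=
    (D.π_sec_ev x).mono fun z hz => by simp only [hz]
  exact (F.analyticAt_coord i c _).differentiableAt.congr_of_eventuallyEq this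

theorem psh_add {φ ψ : S → ℝ} (h1 : D.Psh φ) (h2 : D.Psh ψ) : D.Psh fun x => φ x + ψ x :=
  ⟨h1.1.add h2.1, fun x ξ => by
    exact (add_nonneg (h1.2 x ξ) (h2.2 x ξ)).trans_eq
      (F.levi_add (h1.1.two x) (h2.1.two x) ξ).symm⟩

theorem levi_add {φ ψ : S → ℝ} (h1 : D.Sm φ) (h2 : D.Sm ψ) (x : S) (ξ : ι → ℂ) :
    D.levi (fun x => φ x + ψ x) x ξ = D.levi φ x ξ + D.levi ψ x ξ :=
  F.levi_add (h1.two x) (h2.two x) ξ

theorem psh_mul {φ : S → ℝ} (h1 : D.Psh φ) {c : ℝ} (hc : 0 ≤ c) : D.Psh fun x => c * φ x :=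
  ⟨(D.sm_const c).mul h1.1, fun x ξ => by
    exact (mul_nonneg hc (h1.2 x ξ)).trans_eq (F.levi_const_mul c (h1.1.two x) ξ).symm⟩

theorem psh_const (c : ℝ) : D.Psh fun _ => c :=
  ⟨D.sm_const c, fun x ξ => by simp [levi, F.levi]⟩

theorem psh_sos {α : Type*} (s : Finset α) {f : α → S → ℂ} (hf : ∀ a ∈ s, D.Hol (f a)) {e : ℝ}
    (he : 0 < e) : D.Psh fun x => Real.log (∑ a ∈ s, ‖f a x‖ ^ 2 + e) :=
  ⟨fun x => F.contDiffAt_log_sos s (f := fun a z => f a (D.sec x z)) (fun a ha => ana (hf a ha) x)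
      (by positivity),
    fun x ξ => F.levi_log_sos_nonneg s (f := fun a z => f a (D.sec x z))
      (fun a ha => ana (hf a ha) x) he.le (by positivity) ξ⟩

end WP

open WP

theorem LP.nonneg {om : S → ℝ} (h : D.LP om) (x : S) : 0 ≤ om x := by
  obtain ⟨φ, -, -, -, h4⟩ := h
  exact ge_of_tendsto' (h4 x) fun k => (Real.exp_pos _).le

theorem LP.measurable [OpensMeasurableSpace S] {om : S → ℝ} (h : D.LP om) : Measurable om := by
  obtain ⟨φ, h1, -, -, h4⟩ := h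
  exact measurable_of_tendsto_metrizable (f := fun k x => Real.exp (φ k x))
    (fun k => (Real.continuous_exp.comp (h1 k).1.cont).measurable) (tendsto_pi_nhds.2 h4)

/-- such a weight is locally bounded above -/
theorem LP.bdd {om : S → ℝ} (h : D.LP om) (x : S) : ∃ M, 0 < M ∧ ∀ᶠ y in 𝓝 x, om y ≤ M := by
  obtain ⟨φ, h1, -, h3, -⟩ := h
  have c : Continuous fun y => Real.exp (φ 0 y) := Real.continuous_exp.comp (h1 0).1.cont
  refine ⟨Real.exp (φ 0 x) + 1, by positivity, ?_⟩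
  filter_upwards [c.continuousAt.eventually (gt_mem_nhds (lt_add_one (Real.exp (φ 0 x))))] with y hy
  exact (h3 0 y).trans hy.le

theorem lp_exp {ψ : S → ℝ} (h : D.Psh ψ) : D.LP fun x => Real.exp (ψ x) :=
  ⟨fun _ => ψ, fun _ => h, fun _ _ => le_rfl, fun _ _ => le_rfl, fun _ => tendsto_const_nhds⟩

theorem lp_const {c : ℝ} (hc : 0 < c) : D.LP fun _ => c := by
  have := lp_exp (D := D) (psh_const (Real.log c))
  simpa only [Real.exp_log hc] using this

theorem LP.mul {om om' : S → ℝ} (h : D.LP om) (h' : D.LP om') : D.LP fun x => om x * om' x := by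
  have n := h.nonneg
  have n' := h'.nonneg
  obtain ⟨φ, h1, h2, h3, h4⟩ := h
  obtain ⟨ψ, g1, g2, g3, g4⟩ := h'
  refine ⟨fun k x => φ k x + ψ k x, fun k => psh_add (h1 k) (g1 k),
    fun k x => add_le_add (h2 k x) (g2 k x), fun k x => ?_, fun x => ?_⟩
  · rw [Real.exp_add]
    exact mul_le_mul (h3 k x) (g3 k x) (n' x) (Real.exp_pos _).le
  · simpa only [Real.exp_add] using (h4 x).mul (g4 x)

theorem LP.rpow {om : S → ℝ} (h : D.LP om) {c : ℝ} (hc : 0 ≤ c) : D.LP fun x => om x ^ c := by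
  have n := h.nonneg
  obtain ⟨φ, h1, h2, h3, h4⟩ := h
  have e : ∀ t : ℝ, Real.exp (c * t) = Real.exp t ^ c := fun t => by
    rw [mul_comm, Real.exp_mul]
  refine ⟨fun k x => c * φ k x, fun k => psh_mul (h1 k) hc,
    fun k x => mul_le_mul_of_nonneg_left (h2 k x) hc, fun k x => ?_, fun x => ?_⟩
  · rw [e]
    exact Real.rpow_le_rpow (n x) (h3 k x) hc
  · simp only [e]
    exact ((Real.continuousAt_rpow_const _ c (Or.inr hc)).tendsto).comp (h4 x)

theorem LP.pow {om : S → ℝ} (h : D.LP om) (n : ℕ) : D.LP fun x => om x ^ n := by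
  simpa only [Real.rpow_natCast] using h.rpow (c := n) n.cast_nonneg

theorem lp_prod {α : Type*} (s : Finset α) {om : α → S → ℝ} (h : ∀ a ∈ s, D.LP (om a)) :
    D.LP fun x => ∏ a ∈ s, om a x := by
  classical
  induction s using Finset.induction_on with
  | empty => simpa using lp_const (D := D) one_pos
  | insert a s ha ih =>
    simp only [Finset.prod_insert ha]
    exact (h a (Finset.mem_insert_self a s)).mul (ih fun b hb => h b (Finset.mem_insert_of_mem hb))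

theorem lp_sos {α : Type*} (s : Finset α) {f : α → S → ℂ} (hf : ∀ a ∈ s, D.Hol (f a)) :
    D.LP fun x => ∑ a ∈ s, ‖f a x‖ ^ 2 := by
  have p : ∀ k : ℕ, (0 : ℝ) < 1 / (k + 1) := fun k => by positivity
  have q : ∀ (k : ℕ) x, (0 : ℝ) < ∑ a ∈ s, ‖f a x‖ ^ 2 + 1 / (k + 1) := fun k x => by positivity
  refine ⟨fun k x => Real.log (∑ a ∈ s, ‖f a x‖ ^ 2 + 1 / (k + 1)), fun k => psh_sos s hf (p k),
    fun k x => Real.log_le_log (q k x) ?_, fun k x => ?_, fun x => ?_⟩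
  · gcongr
    exact k.zero_le
  · rw [Real.exp_log (q k x)]
    exact le_add_of_nonneg_right (p k).le
  · simp only [Real.exp_log (q _ x)]
    simpa using tendsto_const_nhds.add (tendsto_one_div_add_atTop_nhds_zero_nat (𝕜 := ℝ))

theorem lp_normSq {f : S → ℂ} (hf : D.Hol f) : D.LP fun x => ‖f x‖ ^ 2 := by
  simpa using lp_sos (D := D) (Finset.univ : Finset Unit) (f := fun _ => f) fun _ _ => hf

theorem LP.congr {om om' : S → ℝ} (h : D.LP om) (e : ∀ x, om x = om' x) : D.LP om' := by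
  rwa [← show om = om' from funext e]

/-- Hoermander for the weight `1 / (om exp η)`; the Levi form of `η` pays for the data -/
theorem HL.lp (H : D.HL) {om η : S → ℝ} (hom : D.LP om) (hη : D.Psh η) {f : S → ℂ} (hf : D.Sm f)
    {h : S → ℝ} (hm : Measurable h) (h0 : ∀ x, 0 ≤ h x)
    (hb : ∀ x ξ, ‖D.dbar f x ξ‖ ^ 2 ≤ h x * D.levi η x ξ)
    (hT : ∫⁻ x, ENNReal.ofReal (h x) * (ENNReal.ofReal (om x * Real.exp (η x)))⁻¹ ∂D.μ ≠ ⊤) :
    ∃ F : S → ℂ, D.Hol F ∧
      ∫⁻ x, ENNReal.ofReal (‖F x - f x‖ ^ 2) * (ENNReal.ofReal (om x * Real.exp (η x)))⁻¹ ∂D.μ ≤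
        ∫⁻ x, ENNReal.ofReal (h x) * (ENNReal.ofReal (om x * Real.exp (η x)))⁻¹ ∂D.μ := by
  obtain ⟨φ, h1, h2, h3, h4⟩ := hom
  refine H (fun k x => φ k x + η x) _ f (fun _ => h) _ (fun k => psh_add (h1 k) hη)
    (fun k x => add_le_add (h2 k x) le_rfl) (fun x => ?_) hf (fun _ => hm) (fun _ => h0)
    (fun k x ξ => ?_) (fun k => lintegral_mono fun x => ?_) hT
  · simpa only [Real.exp_add] using (h4 x).mul_const _
  · rw [levi_add (h1 k).1 hη.1]
    exact (hb x ξ).trans (mul_le_mul_of_nonneg_left (le_add_of_nonneg_left ((h1 k).2 x ξ)) (h0 x))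
  · rw [ENNReal.ofReal_mul (h0 x), Real.exp_neg, ENNReal.ofReal_inv_of_pos (Real.exp_pos _)]
    gcongr
    rw [Real.exp_add]
    exact mul_le_mul_of_nonneg_right (h3 k x) (Real.exp_pos _).le

end RD

end

end Pool.Agent.Lib.MP_5c318e_ag
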