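import Pool.Agent.Lib.MP_5c318e_ag.N.Pol

/-! Generic specialisation: kernels of linear maps between countably generated modules over a
domain commute with reduction modulo a general maximal ideal. -/

set_option autoImplicit false

namespace Pool.Agent.Lib.MP_5c318e_ag.W

open Submodule MeasureTheory

section Alg

variable {A : Type*} [CommRing A] [IsDomain A]

/-- a finitely generated module over a domain is free up to one nonzero scalar -/
theorem exists_split {Q : Type*} [AddCommGroup Q] [Module A Q] [Module.Finite A Q] :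
    ∃ (d : A) (n : ℕ) (α : Q →ₗ[A] (Fin n → A)) (β : (Fin n → A) →ₗ[A] Q),
      d ≠ 0 ∧ ∀ q, β (α q) = d • q := by
  classical
  obtain ⟨m, s, hs⟩ := Module.Finite.exists_fin (R := A) (M := Q)
  obtain ⟨I, hI, hmax⟩ := exists_maximal_linearIndepOn A s
  have h1 : ∀ i, ∃ a : A, a ≠ 0 ∧ a • s i ∈ span A (s '' I) := fun i => by
    by_cases hi : i ∈ I
    · exact ⟨1, one_ne_zero, by rw [one_smul]; exact subset_span ⟨i, hi, rfl⟩⟩
    · exact hmax i hi
  choose a ha0 ha using h1
  let N : Submodule A Q := span A (s '' I)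
  have hd : ∀ q, (∏ i, a i) • q ∈ N := fun q => by
    have hq : q ∈ span A (Set.range s) := hs ▸ mem_top
    induction hq using span_induction with
    | mem x hx =>
      obtain ⟨i, rfl⟩ := hx
      rw [← Finset.prod_erase_mul _ _ (Finset.mem_univ i), mul_smul]
      exact N.smul_mem _ (ha i)
    | zero => simp
    | add x y _ _ hx hy => rw [smul_add]; exact N.add_mem hx hy
    | smul c x _ hx => rw [smul_comm]; exact N.smul_mem _ hx
  have hI' : LinearIndependent A (fun i : I => s i) := hI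
  have hN : span A (Set.range fun i : I => s i) = N := by
    rw [← Set.image_eq_range]
  let b : Module.Basis I A N := (Module.Basis.span hI').map (LinearEquiv.ofEq _ _ hN)
  let e := (Fintype.equivFin I)
  let b' : Module.Basis (Fin (Fintype.card I)) A N := b.reindex e
  let φ : Q →ₗ[A] N := LinearMap.codRestrict N ((∏ i, a i) • LinearMap.id) hd
  refine ⟨∏ i, a i, Fintype.card I, b'.equivFun.toLinearMap ∘ₗ φ,
    N.subtype ∘ₗ b'.equivFun.symm.toLinearMap, Finset.prod_ne_zero_iff.2 fun i _ => ha0 i, ?_⟩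
  intro q
  simp [φ]

/-- a submodule of a finitely generated module is a direct summand up to one nonzero scalar -/
theorem exists_pure {W : Type*} [AddCommGroup W] [Module A W] [Module.Finite A W]
    (P : Submodule A W) :
    ∃ d : A, d ≠ 0 ∧ ∀ I : Ideal A, ∀ x ∈ P, x ∈ I • (⊤ : Submodule A W) → d • x ∈ I • P := by
  obtain ⟨d, n, α, β, hd, h⟩ := exists_split (A := A) (Q := W ⧸ P)
  obtain ⟨β', hβ⟩ := Module.projective_lifting_property P.mkQ β P.mkQ_surjective
  let π : W →ₗ[A] W := d • LinearMap.id - β' ∘ₗ α ∘ₗ P.mkQ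
  have hπ : ∀ y, π y ∈ P := fun y => by
    rw [← Submodule.Quotient.mk_eq_zero, ← Submodule.mkQ_apply]
    have := LinearMap.congr_fun hβ (α (P.mkQ y))
    simp only [LinearMap.comp_apply] at this
    simp only [π, LinearMap.sub_apply, LinearMap.smul_apply, LinearMap.id_apply,
      LinearMap.comp_apply, map_sub, map_smul, this, h, sub_self]
  refine ⟨d, hd, fun I x hx hI => ?_⟩
  have e : π x = d • x := by
    have : P.mkQ x = 0 := by simpa using hx
    simp [π, this]
  rw [← e]
  refine Submodule.smul_induction_on hI (fun r hr y _ => ?_) (fun y z hy hz => ?_)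
  · rw [map_smul]; exact Submodule.smul_mem_smul hr (hπ y)
  · rw [map_add]; exact add_mem hy hz

/-- the same inside an ambient module -/
theorem exists_pure' {V : Type*} [AddCommGroup V] [Module A V] (P W : Submodule A V)
    (hW : W.FG) (hPW : P ≤ W) :
    ∃ d : A, d ≠ 0 ∧ ∀ I : Ideal A, ∀ x ∈ P, x ∈ I • W → d • x ∈ I • P := by
  have : Module.Finite A W := Module.Finite.iff_fg.2 hW
  obtain ⟨d, hd, h⟩ := exists_pure (A := A) (P.comap W.subtype)
  refine ⟨d, hd, fun I x hx hI => ?_⟩
  have h1 : (⟨x, hPW hx⟩ : W) ∈ I • (⊤ : Submodule A W) := by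
    rw [Submodule.mem_smul_top_iff]; exact hI
  have h2 := Submodule.mem_map_of_mem (f := W.subtype) (h I ⟨x, hPW hx⟩ hx h1)
  rw [Submodule.map_smul'', Submodule.map_comap_subtype, inf_eq_right.2 hPW] at h2
  exact h2

omit [IsDomain A] in
theorem exists_finset_of_mem_smul {V : Type*} [AddCommGroup V] [Module A V] {s : Set V}
    (hs : span A s = ⊤) (I : Ideal A) {x : V} (hx : x ∈ I • (⊤ : Submodule A V)) :
    ∃ F : Finset V, (F : Set V) ⊆ s ∧ x ∈ I • span A (F : Set V) := by
  classical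
  refine Submodule.smul_induction_on hx (fun r hr y _ => ?_) (fun y z hy hz => ?_)
  · obtain ⟨F, hF, hy⟩ := Submodule.mem_span_finite_of_mem_span (hs ▸ mem_top : y ∈ span A s)
    exact ⟨F, hF, Submodule.smul_mem_smul hr hy⟩
  · obtain ⟨F, hF, hy⟩ := hy
    obtain ⟨G, hG, hz⟩ := hz
    refine ⟨F ∪ G, by simp [hF, hG], add_mem ?_ ?_⟩
    · exact Submodule.smul_mono le_rfl (span_mono (by simp)) hy
    · exact Submodule.smul_mono le_rfl (span_mono (by simp)) hz

theorem countable_finset_subset {V : Type*} {s : Set V} (hs : s.Countable) :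
    {F : Finset V | (F : Set V) ⊆ s}.Countable :=
  Set.Countable.mono (fun F hF => And.intro F.finite_toSet hF)
    ((Set.countable_ofPred_finite_subset hs).preimage_of_injOn
      (f := fun F : Finset V => (F : Set V)) Finset.coe_injective.injOn)

/-- SPREAD: outside countably many hypersurfaces, an element of the kernel modulo `I` lifts -/
theorem spread {V V' : Type*} [AddCommGroup V] [Module A V] [AddCommGroup V'] [Module A V']
    (L : V →ₗ[A] V') (hV : ∃ s : Set V, s.Countable ∧ span A s = ⊤)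
    (hV' : ∃ s : Set V', s.Countable ∧ span A s = ⊤) :
    ∃ T : Set A, T.Countable ∧ (∀ d ∈ T, d ≠ 0) ∧ ∀ I : Ideal A, I.IsMaximal →
      (∀ d ∈ T, d ∉ I) → ∀ u, L u ∈ I • (⊤ : Submodule A V') →
        ∃ u', L u' = 0 ∧ u - u' ∈ I • (⊤ : Submodule A V) := by
  classical
  obtain ⟨s, hsc, hs⟩ := hV
  obtain ⟨s', hsc', hs'⟩ := hV'
  have key : ∀ (F : Finset V) (G : Finset V'), ∃ d : A, d ≠ 0 ∧ ∀ I : Ideal A,
      ∀ x ∈ (span A (F : Set V)).map L, x ∈ I • ((span A (F : Set V)).map L ⊔ span A (G : Set V')) →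
        d • x ∈ I • (span A (F : Set V)).map L := fun F G =>
    exists_pure' _ _ (((fg_span F.finite_toSet).map L).sup (fg_span G.finite_toSet)) le_sup_left
  choose d hd0 hd using key
  refine ⟨(fun FG : Finset V × Finset V' => d FG.1 FG.2) ''
    ({F : Finset V | (F : Set V) ⊆ s} ×ˢ {G : Finset V' | (G : Set V') ⊆ s'}),
    ((countable_finset_subset hsc).prod (countable_finset_subset hsc')).image _,
    ?_, fun I hI hT u hu => ?_⟩
  · rintro _ ⟨FG, -, rfl⟩
    exact hd0 _ _
  obtain ⟨F, hF, huF⟩ := Submodule.mem_span_finite_of_mem_span (hs ▸ mem_top : u ∈ span A s)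
  obtain ⟨G, hG, huG⟩ := exists_finset_of_mem_smul hs' I hu
  have h1 := hd F G I (L u) (Submodule.mem_map_of_mem huF)
    (Submodule.smul_mono le_rfl le_sup_right huG)
  rw [← Submodule.map_smul''] at h1
  obtain ⟨z, hz, hzL⟩ := h1
  have hdI : d F G ∉ I := hT _ ⟨(F, G), ⟨hF, hG⟩, rfl⟩
  obtain ⟨a, i, hi, hai⟩ := hI.exists_inv hdI
  refine ⟨a • (d F G • u - z), by simp [hzL], ?_⟩
  have e : u - a • (d F G • u - z) = i • u + a • z := by
    have : u = (a * d F G + i) • u := by rw [hai, one_smul]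
    rw [smul_sub, ← mul_smul]
    nth_rewrite 1 [this]
    rw [add_smul]
    abel
  rw [e]
  exact add_mem (Submodule.smul_mem_smul hi mem_top)
    (Submodule.smul_mem _ _ (Submodule.smul_mono le_rfl le_top hz))

end Alg

section AE

variable {ι : Type*} [Fintype ι]

/-- a nonzero polynomial vanishes on a null set -/
theorem ae_eval_ne_zero {P : MvPolynomial ι ℂ} (hP : P ≠ 0) :
    ∀ᵐ w : ι → ℂ, MvPolynomial.eval w P ≠ 0 := by
  obtain ⟨m, hm⟩ := MvPolynomial.ne_zero_iff.1 hP
  have hc : (0 : ℝ) < 1 / (P.totalDegree + 1) := by positivity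
  have hcd : 1 / ((P.totalDegree : ℝ) + 1) * P.totalDegree < 2 := by
    rw [div_mul_eq_mul_div, div_lt_iff₀ (by positivity)]
    have : (0 : ℝ) ≤ P.totalDegree := Nat.cast_nonneg _
    linarith
  have h : ∀ R : ℕ, ∀ᵐ w ∂(volume.restrict (Metric.closedBall (0 : ι → ℂ) R)),
      MvPolynomial.eval w P ≠ 0 := fun R => by
    obtain ⟨C, hC, h⟩ := N.pol (ι := ι) hc hcd (Nat.cast_nonneg R)
    have h1 := (h P le_rfl m).trans_lt (ENNReal.mul_lt_top hC.lt_top
      (ENNReal.rpow_ne_top_of_ne_zero (by simpa using hm) enorm_ne_top).lt_top)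
    filter_upwards [ae_lt_top ((N.measurable_eval P).enorm.pow_const _) h1.ne] with w hw h0
    rw [h0, enorm_zero, ENNReal.zero_rpow_of_neg (neg_lt_zero.2 hc)] at hw
    exact lt_irrefl _ hw
  rw [← Measure.restrict_univ (μ := volume), ← Metric.iUnion_closedBall_nat (0 : ι → ℂ),
    ae_restrict_iUnion_iff]
  exact h

/-- the maximal ideal of a point -/
noncomputable def mx (w : ι → ℂ) : Ideal (MvPolynomial ι ℂ) := RingHom.ker (MvPolynomial.eval w)

omit [Fintype ι] in
theorem mem_mx {w : ι → ℂ} {P : MvPolynomial ι ℂ} : P ∈ mx w ↔ MvPolynomial.eval w P = 0 :=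
  Iff.rfl

omit [Fintype ι] in
theorem mx_isMaximal (w : ι → ℂ) : (mx w).IsMaximal :=
  RingHom.ker_isMaximal_of_surjective _ fun c => ⟨MvPolynomial.C c, by simp⟩

/-- SPREAD at almost every point -/
theorem spread_ae {V V' : Type*} [AddCommGroup V] [Module (MvPolynomial ι ℂ) V]
    [AddCommGroup V'] [Module (MvPolynomial ι ℂ) V'] (L : V →ₗ[MvPolynomial ι ℂ] V')
    (hV : ∃ s : Set V, s.Countable ∧ span (MvPolynomial ι ℂ) s = ⊤)
    (hV' : ∃ s : Set V', s.Countable ∧ span (MvPolynomial ι ℂ) s = ⊤) :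
    ∀ᵐ w : ι → ℂ, ∀ u, L u ∈ mx w • (⊤ : Submodule (MvPolynomial ι ℂ) V') →
      ∃ u', L u' = 0 ∧ u - u' ∈ mx w • (⊤ : Submodule (MvPolynomial ι ℂ) V) := by
  obtain ⟨T, hT, h0, h⟩ := spread L hV hV'
  filter_upwards [(ae_ball_iff hT).2 fun d hd => ae_eval_ne_zero (h0 d hd)] with w hw
  exact h _ (mx_isMaximal w) hw

end AE

end Pool.Agent.Lib.MP_5c318e_ag.W
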