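import Pool.Agent.Lib.MP_5c318e_ag.W.Ext
import Pool.Agent.Lib.MP_5c318e_ag.RD.RMain

/-! The estimate of Hoermander with singular weights in the packaged form `RD.HL`. -/

set_option autoImplicit false

namespace Pool.Agent.Lib.MP_5c318e_ag

namespace RD

variable {ι : Type} [Fintype ι] {S : Type} [TopologicalSpace S] [MeasurableSpace S]
  [BorelSpace S] [T2Space S] [SigmaCompactSpace S] {D : RD ι S}

theorem hl {s : S → ℝ} (hs : D.Exh s) : D.HL :=
  fun _ _ _ _ _ h1 h2 h3 h4 h5 h6 h7 h8 h9 => D.hormander_lim hs h1 h2 h3 h4 h5 h6 h7 h8 h9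

end RD

end Pool.Agent.Lib.MP_5c318e_ag
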