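import Pool.Agent.Lib.MP_5c318e_ag.W.Ext
import Pool.Agent.Lib.MP_5c318e_ag.Ex.Hold

/-! One extension step on a Riemann domain: the tube integral propagates. -/

set_option autoImplicit false
set_option linter.unusedSectionVars false

namespace Pool.Agent.Lib.MP_5c318e_ag

open MeasureTheory Set Filter Topology

noncomputable section

namespace RD.WP

variable {ι κ : Type} [Fintype ι] [Fintype κ]
variable {S : Type} [TopologicalSpace S] [MeasurableSpace S] [BorelSpace S] {D : RD ι S}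

theorem ofReal_sq_rpow (a : ℂ) {t : ℝ} (ht : 0 ≤ t) :
    ENNReal.ofReal ((‖a‖ ^ 2) ^ t) = ‖a‖ₑ ^ (2 * t) := by
  rw [← Real.rpow_natCast, ← Real.rpow_mul (norm_nonneg a), ← ofReal_norm,
    ENNReal.ofReal_rpow_of_nonneg (norm_nonneg a) (by positivity)]
  norm_num

theorem ofReal_sq (a : ℂ) : ENNReal.ofReal (‖a‖ ^ 2) = ‖a‖ₑ ^ (2 : ℝ) := by
  simp

theorem inv_wt (a b : ℂ) {t c : ℝ} (ht : 0 ≤ t) (hc : 0 ≤ c) (u : ℝ) :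
    (ENNReal.ofReal ((‖a‖ ^ 2) ^ t * (‖b‖ ^ 2) ^ c * u))⁻¹ =
      ‖a‖ₑ ^ (-(2 * t)) * ‖b‖ₑ ^ (-(2 * c)) * (ENNReal.ofReal u)⁻¹ := by
  have f : ∀ (x : ℂ) {s : ℝ}, 0 ≤ s → ‖x‖ₑ ^ (2 * s) ≠ ⊤ := fun x s hs =>
    ENNReal.rpow_ne_top_of_nonneg (by positivity) enorm_ne_top
  rw [ENNReal.ofReal_mul (by positivity), ENNReal.ofReal_mul (by positivity), ofReal_sq_rpow a ht,
    ofReal_sq_rpow b hc, ENNReal.mul_inv (Or.inr ENNReal.ofReal_ne_top)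
      (Or.inl (ENNReal.mul_ne_top (f a ht) (f b hc))),
    ENNReal.mul_inv (Or.inr (f b hc)) (Or.inl (f a ht)), ENNReal.rpow_neg, ENNReal.rpow_neg]

theorem rpow_mul_neg_le (a : ℂ) (t : ℝ) :
    ‖a‖ₑ ^ (2 : ℝ) * ‖a‖ₑ ^ (-(2 * t)) ≤ ‖a‖ₑ ^ (2 - 2 * t) := by
  rcases eq_or_ne ‖a‖ₑ 0 with h | h
  · rw [h, ENNReal.zero_rpow_of_pos two_pos, zero_mul]; exact zero_le
  · rw [← ENNReal.rpow_add _ _ h enorm_ne_top, sub_eq_add_neg]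

/-- STEP -/
theorem step (H : D.HL) {u : S → ℝ} (hu : D.LP u) (e : κ ↪ ι) (b0 : κ → ℂ)
    {r R : ℝ} (hr : 0 < r) {U V : S → ℂ} (hU : D.Hol U) (hV : D.Hol V) {t c : ℝ} (ht : 0 ≤ t)
    (ht1 : t < 1) (hc : 0 ≤ c) {T : Set S}
    (hs : ∀ x, ∑ k, ‖D.π x (e k) - b0 k‖ ^ 2 < r → x ∈ T) (hT : MeasurableSet T)
    (hR : ∀ x ∈ T, ∑ k, ‖D.π x (e k) - b0 k‖ ^ 2 ≤ R)
    (h : ∫⁻ x in T, ‖U x‖ₑ ^ (2 - 2 * t) * (‖V x‖ₑ ^ (-(2 * c)) * (ENNReal.ofReal (u x))⁻¹)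
      ∂D.μ ≠ ⊤) :
    ∃ F : S → ℂ, D.Hol F ∧ (∀ x, (∀ k, D.π x (e k) = b0 k) → F x = U x) ∧
      ∫⁻ x, ‖F x‖ₑ ^ (2 : ℝ) * ‖U x‖ₑ ^ (-(2 * t)) * (‖V x‖ₑ ^ (-(2 * c)) * (ENNReal.ofReal
        (u x * (∑ k, ‖D.π x (e k) - b0 k‖ ^ 2 + 1) ^ (Fintype.card κ + 1)))⁻¹) ∂D.μ ≠ ⊤ ∧
      ∫⁻ x in T, ‖F x‖ₑ ^ (2 - 2 * t) * (‖V x‖ₑ ^ (-(2 * c)) * (ENNReal.ofReal (u x))⁻¹)
        ∂D.μ ≠ ⊤ := by
  have hom : D.LP fun x => (‖U x‖ ^ 2) ^ t * (‖V x‖ ^ 2) ^ c * u x :=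
    (((lp_normSq hU).rpow ht).mul ((lp_normSq hV).rpow hc)).mul hu
  obtain ⟨F, F1, F2, F3⟩ := ext H hom e b0 hr (f0 := U) (fun x _ => hU x) (ne_top_of_le_ne_top h
    ((lintegral_mono fun x => by
      rw [inv_wt _ _ ht hc, ofReal_sq, mul_assoc, ← mul_assoc]
      exact mul_le_mul_left (rpow_mul_neg_le _ _) _).trans (lintegral_mono_set hs)))
  have W : ∫⁻ x, ‖F x‖ₑ ^ (2 : ℝ) * ‖U x‖ₑ ^ (-(2 * t)) * (‖V x‖ₑ ^ (-(2 * c)) * (ENNReal.ofReal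
      (u x * (∑ k, ‖D.π x (e k) - b0 k‖ ^ 2 + 1) ^ (Fintype.card κ + 1)))⁻¹) ∂D.μ ≠ ⊤ := by
    refine ne_of_eq_of_ne (lintegral_congr fun x => ?_) F3
    rw [mul_assoc (_ * _) (u x), inv_wt _ _ ht hc, ofReal_sq]
    simp only [mul_assoc]
  refine ⟨F, F1, F2, W, ?_⟩
  have mA : Measurable fun x => ‖V x‖ₑ ^ (-(2 * c)) * (ENNReal.ofReal (u x))⁻¹ :=
    (hV.cont.measurable.enorm.pow_const _).mul hu.measurable.ennreal_ofReal.inv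
  have W' : ∫⁻ x in T, ‖F x‖ₑ ^ (2 : ℝ) * ‖U x‖ₑ ^ (-(2 * t)) *
      (‖V x‖ₑ ^ (-(2 * c)) * (ENNReal.ofReal (u x))⁻¹) ∂D.μ ≠ ⊤ := by
    set A := ENNReal.ofReal ((|R| + 1) ^ (Fintype.card κ + 1)) with hA
    refine ne_top_of_le_ne_top (ENNReal.mul_ne_top (a := A) ENNReal.ofReal_ne_top W) ?_
    rw [← lintegral_const_mul' _ _ ENNReal.ofReal_ne_top]
    refine le_trans (setLIntegral_mono' hT fun x hx => ?_) (setLIntegral_le_lintegral T _)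
    rw [mul_left_comm A, mul_left_comm A]
    refine mul_le_mul_right (mul_le_mul_right ?_ _) _
    have p : 0 < (∑ k, ‖D.π x (e k) - b0 k‖ ^ 2 + 1) ^ (Fintype.card κ + 1) := by positivity
    rw [ENNReal.ofReal_mul (hu.nonneg x), ENNReal.mul_inv (Or.inr ENNReal.ofReal_ne_top)
      (Or.inl ENNReal.ofReal_ne_top), mul_left_comm]
    refine le_mul_of_one_le_right' ?_
    rw [← div_eq_mul_inv, ENNReal.le_div_iff_mul_le (Or.inl (ENNReal.ofReal_pos.2 p).ne')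
      (Or.inl ENNReal.ofReal_ne_top), one_mul]
    exact ENNReal.ofReal_le_ofReal (pow_le_pow_left₀ (by positivity)
      (by linarith [hR x hx, le_abs_self R]) _)
  rcases ht.eq_or_lt with rfl | ht0
  · simpa using W'
  have := Ex.holder_int (μ := D.μ.restrict T) hU.cont.measurable.enorm F1.cont.measurable.enorm mA
    (fun _ => enorm_ne_top) (fun _ => enorm_ne_top) (fun x => mul_ne_zero (by
      rw [ENNReal.rpow_neg, ENNReal.inv_ne_zero]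
      exact ENNReal.rpow_ne_top_of_nonneg (by positivity) enorm_ne_top)
      (ENNReal.inv_ne_zero.2 ENNReal.ofReal_ne_top)) ht0 ht1 W' (by
        simpa only [mul_sub, mul_one] using h)
  simpa only [mul_sub, mul_one] using this

end RD.WP

end

end Pool.Agent.Lib.MP_5c318e_ag
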