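import Pool.Agent.Lib.MP_5c318e_ag.W.LP

/-! A continuous function that is square integrable against `|b|^(-2w)`, `b` a group of `w`
coordinates, vanishes on `b = 0`. -/

set_option autoImplicit false
set_option linter.unusedSectionVars false

namespace Pool.Agent.Lib.MP_5c318e_ag

open MeasureTheory Set Filter Topology Complex Metric

noncomputable section

namespace RD.WP

variable {ι κ : Type} [Fintype ι] [Fintype κ]

theorem vol_box (e : κ ↪ ι) (p : ι → ℂ) {ρ t : ℝ} (hρ : 0 < ρ) (ht : 0 < t) :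
    volume {z : ι → ℂ | z ∈ ball p ρ ∧ ∀ k, ‖z (e k) - p (e k)‖ < t * ρ} ≤
        ENNReal.ofReal (t ^ (2 * Fintype.card κ)) * volume (ball p ρ) ∧
      (t ≤ 1 → volume {z : ι → ℂ | z ∈ ball p ρ ∧ ∀ k, ‖z (e k) - p (e k)‖ < t * ρ} =
        ENNReal.ofReal (t ^ (2 * Fintype.card κ)) * volume (ball p ρ)) := by
  classical
  let r : ι → ℝ := fun i => if i ∈ Finset.univ.map e then t * ρ else ρ
  have hv : volume (Set.pi univ fun i => ball (p i) (r i)) =
      ENNReal.ofReal (t ^ (2 * Fintype.card κ)) * volume (ball p ρ) := by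
    rw [ball_pi _ hρ, volume_pi_pi, volume_pi_pi]
    have : ∀ i, volume (ball (p i) (r i)) =
        (if i ∈ Finset.univ.map e then ENNReal.ofReal (t ^ 2) else 1) * volume (ball (p i) ρ) := by
      intro i
      simp only [r, Complex.volume_ball]
      split_ifs
      · rw [ENNReal.ofReal_mul ht.le, mul_pow, ENNReal.ofReal_pow ht.le, mul_assoc]
      · rw [one_mul]
    simp only [this, Finset.prod_mul_distrib]
    congr 1
    rw [Finset.prod_ite_mem, Finset.univ_inter, Finset.prod_const, Finset.card_map,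
      Finset.card_univ, pow_mul, ENNReal.ofReal_pow (p := t ^ 2) (by positivity)]
  have sub : {z : ι → ℂ | z ∈ ball p ρ ∧ ∀ k, ‖z (e k) - p (e k)‖ < t * ρ} ⊆
      Set.pi univ fun i => ball (p i) (r i) := by
    rintro z ⟨h1, h2⟩ i -
    simp only [r]
    split_ifs with h
    · obtain ⟨k, -, rfl⟩ := Finset.mem_map.1 h
      exact mem_ball_iff_norm.2 (h2 k)
    · rw [ball_pi _ hρ] at h1
      exact h1 i trivial
  refine ⟨hv ▸ measure_mono sub, fun h1 => hv ▸ congrArg _ (sub.antisymm fun z hz => ⟨?_, ?_⟩)⟩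
  · rw [ball_pi _ hρ]
    intro i _
    refine ball_subset_ball ?_ (hz i trivial)
    simp only [r]
    split_ifs
    · nlinarith
    · exact le_rfl
  · intro k
    have := hz (e k) trivial
    simp only [r, Finset.mem_map', Finset.mem_univ, if_true] at this
    exact mem_ball_iff_norm.1 this

/-- `|b|^(-2w)` is not integrable near a point of `b = 0` -/
theorem lint_top [Nonempty κ] (e : κ ↪ ι) (p : ι → ℂ) {ρ : ℝ} (hρ : 0 < ρ) :
    ∫⁻ z in ball p ρ, (ENNReal.ofReal ((∑ k, ‖z (e k) - p (e k)‖ ^ 2) ^ Fintype.card κ))⁻¹ = ⊤ := by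
  by_contra hfin
  set w := Fintype.card κ with hw
  have w0 : 0 < w := Fintype.card_pos
  let t : ℕ → ℝ := fun n => 1 / (n + 1)
  have t0 : ∀ n, 0 < t n := fun n => by positivity
  have t1 : ∀ n, t n ≤ 1 := fun n => by
    simp only [t]
    rw [div_le_one (by positivity)]
    linarith [n.cast_nonneg (α := ℝ)]
  let A : ℕ → Set (ι → ℂ) := fun n => {z | z ∈ ball p ρ ∧ ∀ k, ‖z (e k) - p (e k)‖ < t n * ρ}
  have Am : ∀ n, MeasurableSet (A n) := fun n => by
    have : IsOpen (⋂ k, {z : ι → ℂ | ‖z (e k) - p (e k)‖ < t n * ρ}) :=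
      isOpen_iInter_of_finite fun k => isOpen_lt (by fun_prop) continuous_const
    convert ((isOpen_ball (x := p) (ε := ρ)).inter this).measurableSet using 1
    ext z
    simp [A]
  have Av : ∀ n, volume (A n) = ENNReal.ofReal (t n ^ (2 * w)) * volume (ball p ρ) :=
    fun n => (vol_box e p hρ (t0 n)).2 (t1 n)
  have lim : Tendsto ((volume.restrict (ball p ρ)) ∘ A) atTop (𝓝 0) := by
    have h1 : Tendsto (fun n => t n ^ (2 * w)) atTop (𝓝 0) := by
      have := (tendsto_one_div_add_atTop_nhds_zero_nat (𝕜 := ℝ)).pow (2 * w)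
      rwa [zero_pow (by omega)] at this
    have h2 := ENNReal.Tendsto.mul_const (b := volume (ball p ρ)) (ENNReal.tendsto_ofReal h1)
      (Or.inr measure_ball_lt_top.ne)
    rw [ENNReal.ofReal_zero, zero_mul] at h2
    refine h2.congr fun n => ?_
    rw [Function.comp, Measure.restrict_apply (Am n), inter_eq_left.2 fun z hz => hz.1, Av]
  have h3 := tendsto_setLIntegral_zero hfin lim
  have low : ∀ n, (ENNReal.ofReal ((w * ρ ^ 2) ^ w))⁻¹ * volume (ball p ρ) ≤
      ∫⁻ z in A n, (ENNReal.ofReal ((∑ k, ‖z (e k) - p (e k)‖ ^ 2) ^ w))⁻¹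
        ∂(volume.restrict (ball p ρ)) := by
    intro n
    rw [Measure.restrict_restrict (Am n), inter_eq_left.2 fun z hz => hz.1]
    have : ∀ z ∈ A n, (ENNReal.ofReal (t n ^ (2 * w) * (w * ρ ^ 2) ^ w))⁻¹ ≤
        (ENNReal.ofReal ((∑ k, ‖z (e k) - p (e k)‖ ^ 2) ^ w))⁻¹ := by
      intro z hz
      refine ENNReal.inv_le_inv.2 (ENNReal.ofReal_le_ofReal ?_)
      rw [pow_mul, ← mul_pow]
      refine pow_le_pow_left₀ (by positivity) ?_ w
      calc ∑ k, ‖z (e k) - p (e k)‖ ^ 2 ≤ ∑ _k : κ, (t n * ρ) ^ 2 :=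
            Finset.sum_le_sum fun k _ => pow_le_pow_left₀ (norm_nonneg _) (hz.2 k).le 2
        _ = _ := by rw [Finset.sum_const, Finset.card_univ, nsmul_eq_mul]; ring
    refine le_trans (le_of_eq ?_) (setLIntegral_mono' (Am n) this)
    have p1 : (0 : ℝ) < t n ^ (2 * w) := pow_pos (t0 n) _
    rw [setLIntegral_const, Av, ENNReal.ofReal_mul p1.le,
      ENNReal.mul_inv (Or.inl (by simpa using p1)) (Or.inl ENNReal.ofReal_ne_top), ← mul_assoc]
    congr 1
    rw [mul_right_comm, ENNReal.inv_mul_cancel (by simpa using p1) ENNReal.ofReal_ne_top, one_mul]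
  have := ge_of_tendsto' h3 low
  rw [nonpos_iff_eq_zero, mul_eq_zero] at this
  rcases this with h | h
  · exact ENNReal.ofReal_ne_top (ENNReal.inv_eq_zero.1 h)
  · exact (measure_ball_pos _ p hρ).ne' h

variable {S : Type} [TopologicalSpace S] [MeasurableSpace S] [BorelSpace S] {D : RD ι S}

theorem lint_chart (x : S) {G : S → ENNReal} (hG : Measurable G) {U : Set (ι → ℂ)}
    (hU : U ⊆ (D.ch x).target) : ∫⁻ z in U, G (D.sec x z) ≤ ∫⁻ y, G y ∂D.μ := by
  calc ∫⁻ z in U, G (D.sec x z) ≤ ∫⁻ z in (D.ch x).target, G (D.sec x z) := lintegral_mono_set hU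
    _ = ∫⁻ y in (D.ch x).source, G y ∂D.μ := by
      rw [D.restrict_src x, lintegral_map' hG.aemeasurable (D.sec_aem x)]
    _ ≤ _ := setLIntegral_le_lintegral _ _

/-- vanishing on the zero set of a group of coordinates -/
theorem vanish [Nonempty κ] (e : κ ↪ ι) {g : S → ℂ} {om : S → ℝ} {x : S} (hg : ContinuousAt g x)
    {M : ℝ} (hM : 0 < M)
    (hom : ∀ᶠ y in 𝓝 x, om y ≤ M * (∑ k, ‖D.π y (e k) - D.π x (e k)‖ ^ 2) ^ Fintype.card κ)
    {G : S → ENNReal} (hG : Measurable G)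
    (hle : ∀ᶠ y in 𝓝 x, ENNReal.ofReal (‖g y‖ ^ 2) * (ENNReal.ofReal (om y))⁻¹ ≤ G y)
    (hfin : ∫⁻ y, G y ∂D.μ ≠ ⊤) : g x = 0 := by
  by_contra h0
  have p : 0 < ‖g x‖ ^ 2 / 2 := by positivity
  have h1 : ∀ᶠ y in 𝓝 x, ‖g x‖ ^ 2 / 2 < ‖g y‖ ^ 2 :=
    (hg.norm.pow 2).eventually (lt_mem_nhds (show _ < ‖g x‖ ^ 2 by linarith))
  obtain ⟨r, r0, hr⟩ := D.exists_rad x (h1.and (hom.and hle))
  have hb : ball (D.π x) r ⊆ (D.ch x).target := fun z hz => (hr (ball_subset_closedBall hz)).1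
  refine hfin (top_le_iff.1 (le_trans ?_ (lint_chart x hG hb)))
  have c0 : ENNReal.ofReal (‖g x‖ ^ 2 / 2) * (ENNReal.ofReal M)⁻¹ ≠ 0 :=
    mul_ne_zero (by simpa using p) (ENNReal.inv_ne_zero.2 ENNReal.ofReal_ne_top)
  have c1 : ENNReal.ofReal (‖g x‖ ^ 2 / 2) * (ENNReal.ofReal M)⁻¹ ≠ ⊤ :=
    ENNReal.mul_ne_top ENNReal.ofReal_ne_top (ENNReal.inv_ne_top.2 (by simpa using hM))
  rw [← ENNReal.mul_top c0, ← lint_top e (D.π x) r0, ← lintegral_const_mul' _ _ c1]
  refine setLIntegral_mono' measurableSet_ball fun z hz => ?_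
  obtain ⟨ht, a1, a2, a3⟩ := hr (ball_subset_closedBall hz)
  refine le_trans ?_ a3
  rw [π_sec ht] at a2
  rw [mul_assoc, ← ENNReal.mul_inv (Or.inl (by simpa using hM)) (Or.inl ENNReal.ofReal_ne_top),
    ← ENNReal.ofReal_mul hM.le]
  gcongr

end RD.WP

end

end Pool.Agent.Lib.MP_5c318e_ag
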