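import Pool.Agent.Lib.MP_5c318e_ag.P.FDefs
import Pool.Agent.Lib.MP_5c318e_ag.S.RArea
import Pool.Agent.Lib.MP_5c318e_ag.W.Spread

/-! Fibres of etale charts are reduced; specialisation of kernels to a general fibre. -/

set_option autoImplicit false

namespace Pool.Agent.Lib.MP_5c318e_ag

open MeasureTheory Set Filter Topology TensorProduct Fl

noncomputable section

namespace FibRed

theorem reduced_of_etale (D B : Type*) [CommRing D] [IsDomain D] [CommRing B] [Algebra D B]
    [Algebra.Etale D B] : IsReduced B := by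
  have h1 : IsReduced (FractionRing D ⊗[D] B) :=
    Algebra.FormallyUnramified.isReduced_of_field (FractionRing D) _
  have h2 : Function.Injective
      (Algebra.TensorProduct.includeRight (R := D) (A := FractionRing D) (B := B)) :=
    Algebra.TensorProduct.includeRight_injective (IsFractionRing.injective D (FractionRing D))
  exact isReduced_of_injective _ h2

theorem radical_map {A O : Type*} [CommRing A] [CommRing O] {f : A →+* O} (hf : f.Etale)
    (P : Ideal A) [P.IsPrime] : (P.map f).IsRadical := by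
  let _ := f.toAlgebra
  have : Algebra.Etale A O := hf
  have h1 : IsReduced ((A ⧸ P) ⊗[A] O) := reduced_of_etale (A ⧸ P) _
  rw [Ideal.isRadical_iff_quotient_reduced]
  exact isReduced_of_injective (Algebra.TensorProduct.quotIdealMapEquivQuotTensor O P)
    (Algebra.TensorProduct.quotIdealMapEquivQuotTensor O P).injective

attribute [local instance] MvPolynomial.algebraMvPolynomial in
theorem etale_map (ν : Type) {R S : Type} [CommRing R] [CommRing S] {f : R →+* S}
    (hf : f.Etale) : (MvPolynomial.map (σ := ν) f).Etale := by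
  let _ := f.toAlgebra
  exact RingHom.Etale.isStableUnderBaseChange R S (MvPolynomial ν R) (MvPolynomial ν S) hf

theorem etale_cancel {R S T : Type*} [CommRing R] [CommRing S] [CommRing T] {f : R →+* S}
    {g : S →+* T} (hf : f.Etale) (h : (g.comp f).Etale) : g.Etale := by
  let _ := f.toAlgebra
  let _ := g.toAlgebra
  let _ := (g.comp f).toAlgebra
  have : IsScalarTower R S T := .of_algebraMap_eq' rfl
  have : Algebra.Etale R S := hf
  have : Algebra.Etale R T := h
  exact Algebra.Etale.of_restrictScalars R S T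

/-- a function that vanishes on the zero set of a radical ideal lies in it -/
theorem mem_of_vanish {O : Type} [CommRing O] [Algebra ℂ O] [Algebra.FiniteType ℂ O] {I : Ideal O}
    (hI : I.IsRadical) {φ : O} (h : ∀ p : Pt O, (∀ a ∈ I, p a = 0) → p φ = 0) : φ ∈ I := by
  by_contra hn
  obtain ⟨p, hp, h0⟩ := Pt.exists_zero_ne (I := I) (h := φ) (fun hh => hn (hI hh))
  exact h0 (h p hp)

theorem countable_span (O : Type) [CommRing O] [Algebra ℂ O] [Algebra.FiniteType ℂ O] :
    ∃ s : Set O, s.Countable ∧ Submodule.span ℂ s = ⊤ := by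
  obtain ⟨n, f, hf⟩ := Algebra.FiniteType.iff_quotient_mvPolynomial''.1 ‹_›
  refine ⟨f '' range (MvPolynomial.basisMonomials (Fin n) ℂ), (countable_range _).image _, ?_⟩
  have := Submodule.map_span f.toLinearMap (range (MvPolynomial.basisMonomials (Fin n) ℂ))
  rw [Module.Basis.span_eq, Submodule.map_top, LinearMap.range_eq_top.2 hf] at this
  exact this.symm

section abs

variable {A O : Type} [CommRing A] [Algebra ℂ A] [CommRing O] [Algebra ℂ O]

/-- the fibres of an algebra that is etale over `A[x]` are reduced -/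
theorem radical_fibre {ν : Type} (inc : A →ₐ[ℂ] O) (x : ν → O)
    (h : (MvPolynomial.eval₂Hom (inc : A →+* O) x).Etale) (b : Pt A) :
    (Ideal.map inc (RingHom.ker b.hom)).IsRadical := by
  have : (RingHom.ker (MvPolynomial.map (σ := ν) (b.hom : A →+* ℂ))).IsPrime := RingHom.ker_isPrime _
  have h1 := radical_map h (RingHom.ker (MvPolynomial.map (σ := ν) (b.hom : A →+* ℂ)))
  rw [MvPolynomial.ker_map, Ideal.map_map, MvPolynomial.eval₂Hom_comp_C] at h1
  exact h1

theorem over_iff (inc : A →ₐ[ℂ] O) (b : Pt A) (p : Pt O) :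
    (∀ a ∈ Ideal.map inc (RingHom.ker b.hom), p a = 0) ↔ p.res inc = b := by
  constructor
  · intro h
    refine Pt.ext fun a => ?_
    have := h _ (Ideal.mem_map_of_mem inc (x := a - algebraMap ℂ A (b a)) (by simp [RingHom.mem_ker]))
    simpa [sub_eq_zero] using this
  · rintro rfl a ha
    exact (Ideal.map_le_iff_le_comap.2 (fun c hc => hc) :
      Ideal.map inc (RingHom.ker (p.res inc).hom) ≤ RingHom.ker p.hom) ha

variable [Algebra.FiniteType ℂ O]

theorem red {inc : A →ₐ[ℂ] O} {b : Pt A} (h : (Ideal.map inc (RingHom.ker b.hom)).IsRadical) {φ : O} :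
    φ ∈ Ideal.map inc (RingHom.ker b.hom) ↔ ∀ p : Pt O, p.res inc = b → p φ = 0 :=
  ⟨fun hφ p hp => (over_iff inc b p).2 hp φ hφ,
    fun hφ => mem_of_vanish h fun p hp => hφ p ((over_iff inc b p).1 hp)⟩

/-- kernels of `A`-linear operators specialise to the fibres over very general points -/
theorem spec [IsDomain A] (inc : A →ₐ[ℂ] O)
    (h : ∀ b : Pt A, (Ideal.map inc (RingHom.ker b.hom)).IsRadical) {I J : Type} [Finite I] [Finite J]
    (L : (I → O) →+ (J → O)) (hL : ∀ (a : A) u, L (fun i => inc a * u i) = fun j => inc a * L u j) :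
    ∃ T : Set A, T.Countable ∧ (∀ d ∈ T, d ≠ 0) ∧ ∀ b : Pt A, (∀ d ∈ T, b d ≠ 0) →
      ∀ u, (∀ j (p : Pt O), p.res inc = b → p (L u j) = 0) →
        ∃ u', L u' = 0 ∧ ∀ i (p : Pt O), p.res inc = b → p (u' i) = p (u i) := by
  classical
  let _ : Algebra A O := (inc : A →+* O).toAlgebra
  have : IsScalarTower ℂ A O := .of_algebraMap_eq fun c => (inc.commutes c).symm
  have cnt : ∀ (κ : Type) [Finite κ], ∃ s : Set (κ → O), s.Countable ∧ Submodule.span A s = ⊤ := by
    intro κ _
    have : Algebra.FiniteType ℂ (κ → O) := Algebra.FiniteType.trans (S := O) inferInstance inferInstance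
    obtain ⟨s, hs, h⟩ := countable_span (κ → O)
    exact ⟨s, hs, Submodule.span_eq_top_of_span_eq_top ℂ A s h⟩
  have key : ∀ (κ : Type) [Finite κ] (b : Pt A) (v : κ → O),
      v ∈ RingHom.ker b.hom • (⊤ : Submodule A (κ → O)) ↔
        ∀ j (p : Pt O), p.res inc = b → p (v j) = 0 := by
    intro κ _ b v
    have := Fintype.ofFinite κ
    constructor
    · intro hv
      refine Submodule.smul_induction_on hv (fun r hr y _ j p hp => ?_) (fun y z hy hz j p hp => ?_)
      · have : p (inc r) = 0 := by rw [← Pt.res_apply, hp]; exact hr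
        change p (inc r * y j) = 0
        rw [map_mul, this, zero_mul]
      · rw [Pi.add_apply, map_add, hy j p hp, hz j p hp, add_zero]
    · intro hv
      rw [← Finset.univ_sum_single v]
      refine Submodule.sum_mem _ fun j _ => ?_
      have h1 : v j ∈ RingHom.ker b.hom • (⊤ : Submodule A O) := by
        rw [Ideal.smul_top_eq_map]
        exact (red (h b)).2 (hv j)
      have h2 := Submodule.mem_map_of_mem (f := LinearMap.single A (fun _ : κ => O) j) h1
      rw [Submodule.map_smul''] at h2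
      exact Submodule.smul_mono le_rfl le_top h2
  let L' : (I → O) →ₗ[A] (J → O) := { L with map_smul' := hL }
  obtain ⟨T, h1, h2, h3⟩ := W.spread L' (cnt I) (cnt J)
  refine ⟨T, h1, h2, fun b hb u hu => ?_⟩
  obtain ⟨u', e1, e2⟩ := h3 (RingHom.ker b.hom)
    (RingHom.ker_isMaximal_of_surjective _ fun c => ⟨algebraMap ℂ A c, by simp⟩) hb u
    ((key J b _).2 hu)
  refine ⟨u', e1, fun i p hp => ?_⟩
  have := (key I b _).1 e2 i p hp
  rw [Pi.sub_apply, map_sub, sub_eq_zero] at this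
  exact this.symm

end abs

section cht

variable {ι F : Type} [Fintype ι] [DecidableEq ι] [Field F] [Algebra ℂ F]

theorem eval_π (c : Cht ι F) (p : Pt c.O) (g : MvPolynomial ι ℂ) :
    MvPolynomial.eval (c.D.π p) g = p (MvPolynomial.aeval c.z g) := by
  induction g using MvPolynomial.induction_on with
  | C a => simp
  | add p q hp hq => simp [hp, hq]
  | mul_X p i hp => simp [hp, c.π_eq]

/-- a nonzero element of a chart divides a nonzero polynomial in the coordinates -/
theorem dvd_poly (c : Cht ι F) {h : c.O} (h0 : h ≠ 0) :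
    ∃ g : MvPolynomial ι ℂ, g ≠ 0 ∧ h ∣ MvPolynomial.aeval c.z g := by
  let _ : Algebra (MvPolynomial ι ℂ) c.O := (MvPolynomial.aeval c.z).toRingHom.toAlgebra
  have h1 : IsAlgebraic (MvPolynomial ι ℂ) h :=
    IsAlgebraic.of_ringHom_of_comp_eq c.basis.1.aevalEquiv c.O.val
      (c.basis.isAlgebraic.isAlgebraic (h : F)) c.basis.1.aevalEquiv.surjective Subtype.val_injective
      (MvPolynomial.ringHom_ext (fun a => by simp [RingHom.algebraMap_toAlgebra])
        fun i => by simp [RingHom.algebraMap_toAlgebra])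
  obtain ⟨g, g0, hg⟩ := h1.exists_nonzero_dvd (mem_nonZeroDivisors_of_ne_zero h0)
  exact ⟨g, g0, hg⟩

theorem ae_ne (c : Cht ι F) {h : c.O} (h0 : h ≠ 0) : ∀ᵐ p ∂c.D.μ, p h ≠ 0 := by
  obtain ⟨g, g0, k, hk⟩ := dvd_poly c h0
  filter_upwards [c.D.null_poly g0] with p hp e
  rw [eval_π, hk, map_mul, e, zero_mul] at hp
  exact hp rfl

end cht

section sub

variable {ω γ : Type}

/-- substitution of values for the first block of variables -/
def sub (w : ω → ℂ) : MvPolynomial (ω ⊕ γ) ℂ →ₐ[ℂ] MvPolynomial γ ℂ :=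
  MvPolynomial.aeval (Sum.elim (fun i => MvPolynomial.C (w i)) MvPolynomial.X)

theorem eval_sub (w : ω → ℂ) (x : γ → ℂ) (g : MvPolynomial (ω ⊕ γ) ℂ) :
    MvPolynomial.eval x (sub w g) = MvPolynomial.eval (Sum.elim w x) g := by
  induction g using MvPolynomial.induction_on with
  | C a => simp [sub]
  | add p q hp hq => simp [hp, hq]
  | mul_X p i hp => rcases i with i | i <;> simp [hp] <;> simp [sub]

theorem elim_wc (z : ω ⊕ γ → ℂ) : Sum.elim (wc z) (fun i => z (Sum.inr i)) = z := by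
  funext i; rcases i with i | i <;> rfl

theorem continuous_elim (w : ω → ℂ) : Continuous fun x : γ → ℂ => Sum.elim w x :=
  continuous_pi fun i => by
    rcases i with i | i
    · exact continuous_const
    · exact continuous_apply i

theorem ae_slice [Fintype ω] {g : MvPolynomial (ω ⊕ γ) ℂ} (hg : g ≠ 0) :
    ∃ x0 : γ → ℂ, ∀ᵐ w : ω → ℂ, MvPolynomial.eval (Sum.elim w x0) g ≠ 0 := by
  obtain ⟨z, hz⟩ : ∃ z, MvPolynomial.eval z g ≠ 0 := by
    by_contra! h
    exact hg (MvPolynomial.funext (by simpa using h))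
  let x0 : γ → ℂ := fun i => z (Sum.inr i)
  have e : ∀ w, MvPolynomial.eval w (sub x0 (MvPolynomial.rename Sum.swap g)) =
      MvPolynomial.eval (Sum.elim w x0) g := fun w => by
    rw [eval_sub, MvPolynomial.eval_rename]
    congr 2
    funext i; rcases i with i | i <;> rfl
  have h0 : sub x0 (MvPolynomial.rename Sum.swap g) ≠ 0 := fun h => by
    have := e (wc z)
    rw [h, map_zero, elim_wc] at this
    exact hz this.symm
  exact ⟨x0, (W.ae_eval_ne_zero h0).mono fun w hw => e w ▸ hw⟩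

theorem ker_le (w : ω → ℂ) (q : MvPolynomial ω ℂ) : q - MvPolynomial.C (MvPolynomial.eval w q) ∈
    Ideal.span (range fun i => (MvPolynomial.X i - MvPolynomial.C (w i) : MvPolynomial ω ℂ)) := by
  induction q using MvPolynomial.induction_on with
  | C a => simp
  | add p q hp hq =>
    convert add_mem hp hq using 1
    simp only [map_add]; ring
  | mul_X p i hp =>
    convert add_mem (Ideal.mul_mem_right (MvPolynomial.X i) _ hp)
      (Ideal.mul_mem_left _ (MvPolynomial.C (MvPolynomial.eval w p))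
        (Ideal.subset_span ⟨i, rfl⟩)) using 1
    simp only [map_mul, MvPolynomial.eval_X]; ring

end sub

end FibRed

section slice

variable {ω γ K : Type} [Fintype ω] [DecidableEq ω] [Fintype γ] [DecidableEq γ] [Field K] [Algebra ℂ K]

omit [DecidableEq ω] [DecidableEq γ] in
/-- density of `g ≠ 0` in a slice -/
theorem RD.slice_freq {S : Type} [TopologicalSpace S] [MeasurableSpace S] (D : RD (ω ⊕ γ) S)
    {g : MvPolynomial (ω ⊕ γ) ℂ} {p : S} {x0 : γ → ℂ}
    (h0 : MvPolynomial.eval (Sum.elim (wc (D.π p)) x0) g ≠ 0) :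
    ∃ᶠ q in 𝓝 p, wc (D.π q) = wc (D.π p) ∧ MvPolynomial.eval (D.π q) g ≠ 0 := by
  have h1 : FibRed.sub (wc (D.π p)) g ≠ 0 := fun h => by
    rw [← FibRed.eval_sub, h, map_zero] at h0
    exact h0 rfl
  have h2 : ∃ᶠ x in 𝓝 fun i => D.π p (Sum.inr i),
      MvPolynomial.eval x (FibRed.sub (wc (D.π p)) g) ≠ 0 :=
    mem_closure_iff_frequently.1 (Measure.dense_of_ae (W.ae_eval_ne_zero h1) _)
  have h3 : Tendsto (fun x : γ → ℂ => Sum.elim (wc (D.π p)) x) (𝓝 fun i => D.π p (Sum.inr i))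
      (𝓝 (D.π p)) := by
    have := (FibRed.continuous_elim (γ := γ) (wc (D.π p))).tendsto fun i => D.π p (Sum.inr i)
    rwa [FibRed.elim_wc] at this
  refine ((D.tendsto_sec p).comp h3).frequently ((h2.and_eventually (h3.eventually (D.π_sec_ev p))).mono ?_)
  rintro x ⟨a, b⟩
  rw [FibRed.eval_sub] at a
  rw [Function.comp_apply, b]
  exact ⟨rfl, a⟩

/-- the polynomials in the first block of coordinates -/
def Cht.inc (c : Cht (ω ⊕ γ) K) : MvPolynomial ω ℂ →ₐ[ℂ] c.O :=
  MvPolynomial.aeval fun i => c.z (Sum.inl i)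

theorem Cht.inc_etale (c : Cht (ω ⊕ γ) K) :
    (MvPolynomial.eval₂Hom (c.inc : MvPolynomial ω ℂ →+* c.O) fun i => c.z (Sum.inr i)).Etale := by
  let e : MvPolynomial (ω ⊕ γ) ℂ ≃ₐ[ℂ] MvPolynomial γ (MvPolynomial ω ℂ) :=
    (MvPolynomial.renameEquiv ℂ (Equiv.sumComm ω γ)).trans (MvPolynomial.sumAlgEquiv ℂ γ ω)
  refine FibRed.etale_cancel
    (RingHom.Etale.of_bijective (f := (e : MvPolynomial (ω ⊕ γ) ℂ →+* _)) e.bijective) ?_
  convert c.et using 1
  refine MvPolynomial.ringHom_ext (fun c => ?_) (fun i => ?_)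
  · simp [e]
  · rcases i with i | i <;> simp [e, Cht.inc]

theorem Cht.res_inc (c : Cht (ω ⊕ γ) K) (w0 : ω → ℂ) (p : Pt c.O) :
    p.res c.inc = Pt.mk (MvPolynomial.aeval w0) ↔ wc (c.D.π p) = w0 := by
  constructor
  · intro h
    funext i
    simpa [Cht.inc, wc, c.π_eq] using DFunLike.congr_fun h (MvPolynomial.X i)
  · rintro rfl
    exact MvPolynomial.algHom_ext fun i => by
      change p (c.inc _) = MvPolynomial.aeval _ _
      simp [Cht.inc, wc, c.π_eq]

theorem Cht.zero_of_off (c : Cht (ω ⊕ γ) K) {g : MvPolynomial (ω ⊕ γ) ℂ} {w0 : ω → ℂ} {x0 : γ → ℂ}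
    (h0 : MvPolynomial.eval (Sum.elim w0 x0) g ≠ 0) {φ : c.O}
    (h : ∀ p, wc (c.D.π p) = w0 → MvPolynomial.eval (c.D.π p) g ≠ 0 → p φ = 0) (p : Pt c.O)
    (hp : wc (c.D.π p) = w0) : p φ = 0 := by
  subst hp
  exact (isClosed_eq (Pt.continuous_apply φ) continuous_const).closure_subset
    (mem_closure_iff_frequently.2 ((c.D.slice_freq h0).mono fun q hq => h q hq.1 hq.2))

/-- RED -/
theorem Cht.red (c : Cht (ω ⊕ γ) K) {g : MvPolynomial (ω ⊕ γ) ℂ} {w0 : ω → ℂ} {x0 : γ → ℂ}
    (h0 : MvPolynomial.eval (Sum.elim w0 x0) g ≠ 0) {φ : c.O}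
    (h : ∀ p, wc (c.D.π p) = w0 → MvPolynomial.eval (c.D.π p) g ≠ 0 → p φ = 0) :
    φ ∈ Ideal.span (range fun i => c.z (Sum.inl i) - algebraMap ℂ c.O (w0 i)) := by
  have h1 := (FibRed.red (FibRed.radical_fibre _ _ c.inc_etale (Pt.mk (MvPolynomial.aeval w0)))).2
    fun p hp => c.zero_of_off h0 h p ((c.res_inc w0 p).1 hp)
  refine Ideal.map_le_iff_le_comap.2 (fun q hq => ?_) h1
  have h2 := Ideal.mem_map_of_mem c.inc (FibRed.ker_le w0 q)
  have h3 : MvPolynomial.eval w0 q = 0 := hq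
  rw [h3, map_zero, sub_zero, Ideal.map_span, ← range_comp] at h2
  simpa [Function.comp_def, Cht.inc] using h2

/-- SPEC -/
theorem Cht.spec (c : Cht (ω ⊕ γ) K) {g : MvPolynomial (ω ⊕ γ) ℂ} (hg : g ≠ 0) {I J : Type} [Finite I]
    [Finite J] (L : (I → c.O) →ₗ[ℂ] (J → c.O))
    (hL : ∀ (k : ω) u, L (fun i => c.z (Sum.inl k) * u i) = fun j => c.z (Sum.inl k) * L u j) :
    ∀ᵐ w0 : ω → ℂ, ∀ u,
      (∀ j p, wc (c.D.π p) = w0 → MvPolynomial.eval (c.D.π p) g ≠ 0 → p (L u j) = 0) →
      ∃ u', L u' = 0 ∧ ∀ i p, wc (c.D.π p) = w0 → p (u' i) = p (u i) := by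
  have hL' : ∀ (a : MvPolynomial ω ℂ) u,
      L.toAddMonoidHom (fun i => c.inc a * u i) = fun j => c.inc a * L.toAddMonoidHom u j := by
    intro a
    induction a using MvPolynomial.induction_on with
    | C a =>
      intro u
      simpa [Cht.inc, ← Algebra.smul_def, Pi.smul_def] using L.map_smul a u
    | add p q hp hq =>
      intro u
      simp only [map_add, add_mul]
      exact (L.map_add (fun i => c.inc p * u i) fun i => c.inc q * u i).trans
        (congrArg₂ (· + ·) (hp u) (hq u))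
    | mul_X p k hp =>
      intro u
      have := hp fun i => c.z (Sum.inl k) * u i
      simp only [LinearMap.toAddMonoidHom_coe, hL] at this
      simpa [Cht.inc, mul_assoc] using this
  obtain ⟨S, h1, h2, h3⟩ := FibRed.spec c.inc (FibRed.radical_fibre _ _ c.inc_etale) _ hL'
  obtain ⟨x0, hx⟩ := FibRed.ae_slice hg
  filter_upwards [hx, (ae_ball_iff h1).2 fun d hd => W.ae_eval_ne_zero (h2 d hd)] with w0 h0 hb u hu
  obtain ⟨u', e1, e2⟩ := h3 (Pt.mk (MvPolynomial.aeval w0)) hb u fun j p hp =>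
    c.zero_of_off h0 (hu j) p ((c.res_inc w0 p).1 hp)
  exact ⟨u', e1, fun i p hp => e2 i p ((c.res_inc w0 p).2 hp)⟩

/-- HOR: connection `h d_k u = C_k u` in the directions `inr k` -/
theorem Cht.hor (c : Cht (ω ⊕ γ) K) {g : MvPolynomial (ω ⊕ γ) ℂ} (hg : g ≠ 0) {I : Type} [Fintype I]
    (h : c.O) (C : γ → I → I → c.O) :
    ∀ᵐ w0 : ω → ℂ, ∀ u : I → c.O,
      (∀ k i p, wc (c.D.π p) = w0 → MvPolynomial.eval (c.D.π p) g ≠ 0 →
        p h * c.D.fd (fun q => q (u i)) p (Pi.single (Sum.inr k) 1) = ∑ j, p (C k i j) * p (u j)) →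
      ∃ u' : I → c.O, (∀ k i, (h : K) * c.der (Sum.inr k) (u' i) = ∑ j, (C k i j : K) * u' j) ∧
        ∀ i p, wc (c.D.π p) = w0 → p (u' i) = p (u i) := by
  let L : (I → c.O) →ₗ[ℂ] (γ × I → c.O) :=
    { toFun := fun u ki => h * ⟨_, c.der_mem (Sum.inr ki.1) _ (u ki.2).2⟩ - ∑ j, C ki.1 ki.2 j * u j
      map_add' := fun u v => funext fun ki => Subtype.ext (by
        simp [mul_add, Finset.sum_add_distrib]; ring)
      map_smul' := fun a u => funext fun ki => Subtype.ext (by
        simp [smul_sub, Finset.smul_sum]) }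
  have hL : ∀ (k : ω) u,
      L (fun i => c.z (Sum.inl k) * u i) = fun j => c.z (Sum.inl k) * L u j := fun k u =>
    funext fun ki => Subtype.ext (by
      simp [L, c.der_z, mul_sub, Finset.mul_sum, mul_left_comm])
  filter_upwards [c.spec hg L hL] with w0 hb u hu
  obtain ⟨u', e1, e2⟩ := hb u fun ki p h1 h2 => by
    simp only [L, LinearMap.coe_mk, AddHom.coe_mk, map_sub, map_mul, map_sum, ← c.fd_eq,
      hu _ _ p h1 h2, sub_self]
  refine ⟨u', fun k i => ?_, e2⟩
  simpa using congrArg (fun φ : c.O => (φ : K)) (sub_eq_zero.1 (congrFun e1 (k, i)))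

end slice

section rel

variable {δ ν K M : Type} [Fintype δ] [DecidableEq δ] [Fintype ν] [DecidableEq ν]
  [Field K] [Algebra ℂ K] [Field M] [Algebra ℂ M] [Algebra K M] {B : Cht δ K}

theorem Rel.etale (T : Rel B ν M) :
    (MvPolynomial.eval₂Hom (T.inc : B.O →+* T.X.O) fun i => T.X.z (Sum.inr i)).Etale := by
  let e : MvPolynomial (δ ⊕ ν) ℂ ≃ₐ[ℂ] MvPolynomial ν (MvPolynomial δ ℂ) :=
    (MvPolynomial.renameEquiv ℂ (Equiv.sumComm δ ν)).trans (MvPolynomial.sumAlgEquiv ℂ ν δ)
  have h1 := RingHom.Etale.stableUnderComposition _ _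
    (RingHom.Etale.of_bijective (f := (e : MvPolynomial (δ ⊕ ν) ℂ →+* _)) e.bijective)
    (FibRed.etale_map ν B.et)
  refine FibRed.etale_cancel h1 ?_
  convert T.X.et using 1
  refine MvPolynomial.ringHom_ext (fun c => ?_) (fun i => ?_)
  · simp [e]
  · rcases i with i | i <;> simp [e, T.zy]

/-- RED: the fibres are reduced -/
theorem Rel.red (T : Rel B ν M) (b : Pt B.O) (φ : T.X.O) :
    φ ∈ Ideal.map T.inc (RingHom.ker b.hom) ↔ ∀ p : T.Fib b, p.1 φ = 0 :=
  (FibRed.red (FibRed.radical_fibre _ _ T.etale b)).trans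
    ⟨fun h p => h p.1 p.2, fun h p hp => h ⟨p, hp⟩⟩

/-- SPEC: kernels of operators that are linear over the base specialise to almost every fibre -/
theorem Rel.spec (T : Rel B ν M) {I J : Type} [Finite I] [Finite J]
    (L : (I → T.X.O) →+ (J → T.X.O))
    (hL : ∀ (a : B.O) u, L (fun i => T.inc a * u i) = fun j => T.inc a * L u j) :
    ∀ᵐ b ∂B.D.μ, ∀ u, (∀ j (p : T.Fib b), p.1 (L u j) = 0) →
      ∃ u', L u' = 0 ∧ ∀ i (p : T.Fib b), p.1 (u' i) = p.1 (u i) := by
  obtain ⟨S, h1, h2, h3⟩ := FibRed.spec T.inc (FibRed.radical_fibre _ _ T.etale) L hL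
  filter_upwards [(ae_ball_iff h1).2 fun d hd => FibRed.ae_ne B (h2 d hd)] with b hb u hu
  obtain ⟨u', e1, e2⟩ := h3 b hb u fun j p hp => hu j ⟨p, hp⟩
  exact ⟨u', e1, fun i p => e2 i p.1 p.2⟩

/-- the derivation along the fibres on the ring of the chart -/
def Rel.dO (T : Rel B ν M) (k : ν) (φ : T.X.O) : T.X.O :=
  ⟨T.X.der (Sum.inr k) φ, T.X.der_mem _ φ φ.2⟩

theorem Rel.coe_dO (T : Rel B ν M) (k : ν) (φ : T.X.O) : (T.dO k φ : M) = T.dx k φ :=
  (T.dx_eq k φ).symm

theorem Rel.dO_add (T : Rel B ν M) (k : ν) (φ ψ : T.X.O) :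
    T.dO k (φ + ψ) = T.dO k φ + T.dO k ψ := Subtype.ext (by simp [Rel.coe_dO])

theorem Rel.dO_mul (T : Rel B ν M) (k : ν) (φ ψ : T.X.O) :
    T.dO k (φ * ψ) = φ * T.dO k ψ + ψ * T.dO k φ := Subtype.ext (by simp [Rel.coe_dO])

theorem Rel.dO_inc (T : Rel B ν M) (k : ν) (a : B.O) : T.dO k (T.inc a) = 0 :=
  Subtype.ext (by simp [Rel.coe_dO, T.inc_eq])

theorem Rel.fd_dO (T : Rel B ν M) (b : Pt B.O) (φ : T.X.O) (p : T.Fib b) (k : ν) :
    (T.fib b).fd (fun q => q.1 φ) p (Pi.single k 1) = p.1 (T.dO k φ) := T.fib_fd b φ p k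

/-- HOR: a tuple that is horizontal on one very general fibre extends to a horizontal tuple -/
theorem Rel.hor (T : Rel B ν M) {I : Type} [Fintype I] (h : T.X.O) (C : ν → I → I → T.X.O) :
    ∀ᵐ b ∂B.D.μ, ∀ u : I → T.X.O,
      (∀ k i (p : T.Fib b), p.1 h * (T.fib b).fd (fun q => q.1 (u i)) p (Pi.single k 1) =
        ∑ j, p.1 (C k i j) * p.1 (u j)) →
      ∃ u' : I → T.X.O, (∀ k i, (h : M) * T.dx k (u' i) = ∑ j, (C k i j : M) * u' j) ∧
        ∀ i (p : T.Fib b), p.1 (u' i) = p.1 (u i) := by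
  let L : (I → T.X.O) →+ (ν × I → T.X.O) := AddMonoidHom.mk'
    (fun u ki => h * T.dO ki.1 (u ki.2) - ∑ j, C ki.1 ki.2 j * u j) fun u v => by
      funext ki
      simp only [Pi.add_apply, T.dO_add, mul_add, Finset.sum_add_distrib]
      ring
  have hL : ∀ (a : B.O) u, L (fun i => T.inc a * u i) = fun j => T.inc a * L u j := fun a u => by
    funext ki
    simp only [L, AddMonoidHom.mk'_apply, T.dO_mul, T.dO_inc, mul_sub, Finset.mul_sum]
    congr 1
    · ring
    · exact Finset.sum_congr rfl fun j _ => by ring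
  filter_upwards [T.spec L hL] with b hb u hu
  obtain ⟨u', e1, e2⟩ := hb u fun ki p => by
    simp only [L, AddMonoidHom.mk'_apply, map_sub, map_mul, map_sum, ← T.fd_dO, hu, sub_self]
  refine ⟨u', fun k i => ?_, e2⟩
  have := congrArg (fun φ : T.X.O => (φ : M)) (sub_eq_zero.1 (congrFun e1 (k, i)))
  simpa [T.coe_dO] using this

end rel

end

end Pool.Agent.Lib.MP_5c318e_ag
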