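import Pool.Agent.Lib.MP_5c318e_ag.W.FibLiftA
import Pool.Agent.Lib.MP_5c318e_ag.S.CCov

/-! Functions of moderate growth on a chart or on one of its slices come from the ring. -/

set_option autoImplicit false

namespace Pool.Agent.Lib.MP_5c318e_ag

open MeasureTheory Set Filter Topology Fl Polynomial

noncomputable section

variable {ω γ ι K : Type} [Fintype ω] [DecidableEq ω] [Fintype γ] [DecidableEq γ] [Fintype ι]
  [DecidableEq ι] [Field K] [Algebra ℂ K]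

theorem Cht.exists_elt (c : Cht ι K) (h : Fini (Algebra.ofId ℂ c.O) c.z)
    (P : (MvPolynomial ι ℂ)[X]) (j : ℕ) : ∃ ψ : c.O, ∀ (p : Pt c.O) (t : ℂ),
      t * MvPolynomial.eval (c.D.π p) h.Δ ^ j = ev2 P (c.D.π p) (p h.w) → t = p ψ := by
  obtain ⟨v, hv⟩ := h.unit.exists_left_inv
  refine ⟨P.eval₂ (MvPolynomial.eval₂Hom (Algebra.ofId ℂ c.O : ℂ →+* c.O) c.z) h.w * v ^ j,
    fun p t e => ?_⟩
  have e1 := congrArg p hv
  rw [map_mul, p.apply_mv, Pt.map_complex, map_one, RingHom.id_apply, ← c.π_fun] at e1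
  rw [map_mul, map_pow, p.apply_ev2, Pt.map_complex, Polynomial.map_id, ← c.π_fun, ← e, mul_assoc,
    ← mul_pow, mul_comm _ (p v), e1, one_pow, mul_one]

omit [DecidableEq ι] in
theorem FibLift.mul_bound {g : MvPolynomial ι ℂ} {N L : ℕ} {A B : ℝ} {t : ℂ} {z : ι → ℂ}
    (h : ‖t‖ ≤ A * mg g z ^ N) (h' : (mg g z * ‖MvPolynomial.eval z g‖) ^ N ≤ B * (1 + ‖z‖) ^ L) :
    ‖t * MvPolynomial.eval z g ^ N‖ ≤ |A| * B * (1 + ‖z‖) ^ L := by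
  have : 0 ≤ mg g z := by unfold mg; positivity
  rw [norm_mul, norm_pow, mul_assoc]
  refine le_trans ?_ (mul_le_mul_of_nonneg_left h' (abs_nonneg A))
  rw [mul_pow, ← mul_assoc]
  exact mul_le_mul_of_nonneg_right
    (h.trans (mul_le_mul_of_nonneg_right (le_abs_self A) (by positivity))) (by positivity)

/-- LIFT, polynomial growth -/
theorem Cht.lift_poly (c : Cht (ω ⊕ γ) K) (h : Fini (Algebra.ofId ℂ c.O) c.z)
    (g : MvPolynomial (ω ⊕ γ) ℂ) (w0 : ω → ℂ) {u : Pt c.O → ℂ}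
    (hu : ∀ p, wc (c.D.π p) = w0 → MvPolynomial.eval (c.D.π p) g ≠ 0 →
      DifferentiableAt ℂ (fun x : γ → ℂ => u (c.D.sec p (Sum.elim w0 x))) fun i => c.D.π p (Sum.inr i))
    {A : ℝ} {L : ℕ} (hb : ∀ p, wc (c.D.π p) = w0 → MvPolynomial.eval (c.D.π p) g ≠ 0 →
      ‖u p‖ ≤ A * (1 + ‖c.D.π p‖) ^ L) :
    ∃ ψ : c.O, ∀ p, wc (c.D.π p) = w0 → MvPolynomial.eval (c.D.π p) g ≠ 0 → u p = p ψ := by
  obtain ⟨C, -, e1, e2⟩ := c.cov h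
  obtain ⟨P, j, hP⟩ := C.alg_slice g w0 hu hb
  obtain ⟨ψ, hψ⟩ := c.exists_elt h P j
  exact ⟨ψ, fun p a b => hψ p _ (by rw [← e1, ← e2]; exact hP p a b)⟩

/-- LIFT -/
theorem Cht.lift (c : Cht (ω ⊕ γ) K) (h : Fini (Algebra.ofId ℂ c.O) c.z) (g : MvPolynomial (ω ⊕ γ) ℂ)
    (w0 : ω → ℂ) {u : Pt c.O → ℂ}
    (hu : ∀ p, wc (c.D.π p) = w0 → MvPolynomial.eval (c.D.π p) g ≠ 0 →
      DifferentiableAt ℂ (fun x : γ → ℂ => u (c.D.sec p (Sum.elim w0 x))) fun i => c.D.π p (Sum.inr i))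
    {A : ℝ} {N : ℕ} (hb : ∀ p, wc (c.D.π p) = w0 → MvPolynomial.eval (c.D.π p) g ≠ 0 →
      ‖u p‖ ≤ A * mg g (c.D.π p) ^ N) :
    ∃ ψ : c.O, ∀ p, wc (c.D.π p) = w0 → MvPolynomial.eval (c.D.π p) g ≠ 0 →
      u p * MvPolynomial.eval (c.D.π p) g ^ N = p ψ := by
  obtain ⟨B, L, hB⟩ := FibLift.mg_bound g N
  refine c.lift_poly h g w0 (u := fun p => u p * MvPolynomial.eval (c.D.π p) g ^ N) (fun p a b => ?_)
    fun p a b => FibLift.mul_bound (hb p a b) (hB _ b)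
  refine (hu p a b).mul (DifferentiableAt.pow ?_ N)
  have e : Sum.elim w0 (fun i => c.D.π p (Sum.inr i)) = c.D.π p := a ▸ FibRed.elim_wc _
  refine DifferentiableAt.comp (g := fun z => MvPolynomial.eval (c.D.π (c.D.sec p z)) g) _ ?_
    (FibRed.differentiable_elim w0 _)
  rw [e]
  simp only [FibRed.eval_π]
  exact c.hol _ p

/-- RAT, polynomial growth -/
theorem Cht.ratpoly (c : Cht ι K) (h : Fini (Algebra.ofId ℂ c.O) c.z) (g : MvPolynomial ι ℂ)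
    {u : Pt c.O → ℂ} (hu : ∀ p, MvPolynomial.eval (c.D.π p) g ≠ 0 →
      DifferentiableAt ℂ (fun z => u (c.D.sec p z)) (c.D.π p))
    {A : ℝ} {L : ℕ} (hb : ∀ p, MvPolynomial.eval (c.D.π p) g ≠ 0 → ‖u p‖ ≤ A * (1 + ‖c.D.π p‖) ^ L) :
    ∃ ψ : c.O, ∀ p, MvPolynomial.eval (c.D.π p) g ≠ 0 → u p = p ψ := by
  obtain ⟨C, -, e1, e2⟩ := c.cov h
  obtain ⟨P, j, hP⟩ := C.alg_poly hu hb
  obtain ⟨ψ, hψ⟩ := c.exists_elt h P j
  exact ⟨ψ, fun p b => hψ p _ (by rw [← e1, ← e2]; exact hP p b)⟩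

/-- RATMOD -/
theorem Cht.ratmod (c : Cht ι K) (h : Fini (Algebra.ofId ℂ c.O) c.z) (g : MvPolynomial ι ℂ)
    {u : Pt c.O → ℂ} (hu : ∀ p, MvPolynomial.eval (c.D.π p) g ≠ 0 →
      DifferentiableAt ℂ (fun z => u (c.D.sec p z)) (c.D.π p))
    {A : ℝ} {N : ℕ} (hb : ∀ p, MvPolynomial.eval (c.D.π p) g ≠ 0 → ‖u p‖ ≤ A * mg g (c.D.π p) ^ N) :
    ∃ ψ : c.O, ∀ p, MvPolynomial.eval (c.D.π p) g ≠ 0 →
      u p * MvPolynomial.eval (c.D.π p) g ^ N = p ψ := by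
  obtain ⟨B, L, hB⟩ := FibLift.mg_bound g N
  refine c.ratpoly h g (u := fun p => u p * MvPolynomial.eval (c.D.π p) g ^ N) (fun p b => ?_)
    fun p b => FibLift.mul_bound (hb p b) (hB _ b)
  refine (hu p b).mul (DifferentiableAt.pow ?_ N)
  simp only [FibRed.eval_π]
  exact c.hol _ p

/-- RAT in the mean -/
theorem Cht.ratL2 (c : Cht ι K) (h : Fini (Algebra.ofId ℂ c.O) c.z) {g : MvPolynomial ι ℂ} (hg : g ≠ 0)
    {u : Pt c.O → ℂ} (hu : ∀ p, MvPolynomial.eval (c.D.π p) g ≠ 0 →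
      DifferentiableAt ℂ (fun z => u (c.D.sec p z)) (c.D.π p))
    (k N : ℕ) (hi : ∫⁻ p in {p | MvPolynomial.eval (c.D.π p) g ≠ 0}, ENNReal.ofReal (‖u p‖ ^ 2 *
      ‖MvPolynomial.eval (c.D.π p) h.Δ‖ ^ (2 * k) / (1 + ‖c.D.π p‖ ^ 2) ^ N) ∂c.D.μ < ⊤) :
    ∃ ψ : c.O, ∀ p, MvPolynomial.eval (c.D.π p) g ≠ 0 → u p = p ψ := by
  obtain ⟨C, -, e1, e2⟩ := c.cov h
  obtain ⟨P, j, hP⟩ := C.alg hg hu k N (e1 ▸ hi)
  obtain ⟨ψ, hψ⟩ := c.exists_elt h P j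
  exact ⟨ψ, fun p b => hψ p _ (by rw [← e1, ← e2]; exact hP p b)⟩

end

end Pool.Agent.Lib.MP_5c318e_ag
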