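import Pool.Agent.Lib.MP_5c318e_ag.W.Van
import Pool.Agent.Lib.MP_9ff3e7_ag.F.LeviGlue

/-! Extension from the zero set of a group of coordinates, with finite weighted `L²` norm. -/

set_option autoImplicit false
set_option linter.unusedSectionVars false

namespace Pool.Agent.Lib.MP_5c318e_ag

open MeasureTheory Set Filter Topology Complex
open scoped ContDiff
open Pool.Agent.Lib.MP_9ff3e7_ag

noncomputable section

namespace RD.WP

variable {ι κ : Type} [Fintype ι] [Fintype κ]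
variable {S : Type} [TopologicalSpace S] [MeasurableSpace S] [BorelSpace S] {D : RD ι S}

theorem ofReal_inv_mul {a b : ℝ} (ha : 0 ≤ a) (hb : 0 < b) :
    (ENNReal.ofReal (a * b))⁻¹ = (ENNReal.ofReal a)⁻¹ * ENNReal.ofReal b⁻¹ := by
  rw [ENNReal.ofReal_mul ha, ENNReal.mul_inv (Or.inr ENNReal.ofReal_ne_top)
    (Or.inl ENNReal.ofReal_ne_top), ENNReal.ofReal_inv_of_pos hb]

/-- the cut-off data and its correction -/
theorem ext_core (H : D.HL) {om : S → ℝ} (hom : D.LP om) {b : κ → S → ℂ} (hb : ∀ k, D.Hol (b k))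
    {r : ℝ} (hr : 0 < r) {f0 : S → ℂ}
    (hf : ∀ x, ∑ k, ‖b k x‖ ^ 2 < r → DifferentiableAt ℂ (fun z => f0 (D.sec x z)) (D.π x))
    (hI : ∫⁻ x in {x | ∑ k, ‖b k x‖ ^ 2 < r},
      ENNReal.ofReal (‖f0 x‖ ^ 2) * (ENNReal.ofReal (om x))⁻¹ ∂D.μ ≠ ⊤) (N : ℕ) :
    ∃ F f : S → ℂ, D.Hol F ∧ Continuous f ∧ (∀ x, ∑ k, ‖b k x‖ ^ 2 ≤ r / 4 → f x = f0 x) ∧
      (∀ x, ‖f x‖ ≤ ‖f0 x‖) ∧ (∀ x, r / 2 ≤ ∑ k, ‖b k x‖ ^ 2 → f x = 0) ∧
      ∫⁻ x, ENNReal.ofReal (‖F x - f x‖ ^ 2) * (ENNReal.ofReal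
        (om x * (∑ k, ‖b k x‖ ^ 2) ^ N * (∑ k, ‖b k x‖ ^ 2 + 1)))⁻¹ ∂D.μ ≠ ⊤ := by
  set q : S → ℝ := fun x => ∑ k, ‖b k x‖ ^ 2 with hq
  have q0 : ∀ x, 0 ≤ q x := fun x => by positivity
  have qs : D.Sm q := D.sm_sum _ fun k _ => (hol_sm (hb k)).normSq
  have To : IsOpen {x | q x < r} := isOpen_lt qs.cont continuous_const
  obtain ⟨s, s1, -, s3, s4, -, s6, s7, s8, M, hM⟩ := F.exists_step (show r / 4 < r / 2 by linarith)
  let χ : ℝ → ℝ := fun t => 1 - s t
  have c1 : ContDiff ℝ ∞ χ := contDiff_const.sub s1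
  have cd : ∀ t, deriv χ t = -deriv s t := fun t => deriv_const_sub 1
  let f : S → ℂ := fun x => (χ (q x) : ℂ) * f0 x
  have f_zero : ∀ x, r / 2 ≤ q x → f x = 0 := fun x hx => by simp [f, χ, s4 _ hx]
  have f_ev : ∀ x, r / 2 < q x → f =ᶠ[𝓝 x] fun _ => 0 := fun x hx =>
    (qs.cont.continuousAt.eventually (lt_mem_nhds hx)).mono fun y hy => f_zero y hy.le
  have cs : D.Sm fun x => (χ (q x) : ℂ) := (qs.comp c1).ofReal
  have fs : D.Sm f := fun x => by
    by_cases hx : q x < r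
    · exact (cs x).mul (((ana_on To hf hx).contDiffAt (n := ∞)).restrict_scalars ℝ)
    · exact contDiffAt_const.congr_of_eventuallyEq (ev_sec (f_ev x (by linarith)))
  let A : Set S := {x | r / 4 ≤ q x ∧ q x ≤ r / 2}
  have Ac : IsClosed A :=
    (isClosed_le continuous_const qs.cont).inter (isClosed_le qs.cont continuous_const)
  have AT : A ⊆ {x | q x < r} := fun x hx => lt_of_le_of_lt hx.2 (by linarith)
  have fc : ContinuousOn f0 {x | q x < r} := fun x hx => by
    refine (((hf x hx).continuousAt.comp D.cont_π.continuousAt).congr ?_).continuousWithinAt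
    filter_upwards [(D.ch x).open_source.mem_nhds (D.mem_src x)] with y hy
    simp only [Function.comp, sec_π hy]
  set C : ℝ := M ^ 2 * (r / 2) * (r / 2 + 1) ^ 2 with hC
  have C0 : 0 ≤ C := by positivity
  classical
  let h : S → ℝ := A.piecewise (fun x => C * ‖f0 x‖ ^ 2) fun _ => 0
  have hm : Measurable h :=
    ContinuousOn.measurable_piecewise (continuousOn_const.mul ((fc.mono AT).norm.pow 2))
      continuousOn_const Ac.measurableSet
  have h0 : ∀ x, 0 ≤ h x := fun x => by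
    simp only [h, piecewise]
    split_ifs <;> positivity
  have eta : D.Psh fun x => Real.log (q x + 1) :=
    psh_sos (D := D) Finset.univ (f := b) (fun k _ => hb k) one_pos
  have key : ∀ x ξ, ‖D.dbar f x ξ‖ ^ 2 ≤ h x * D.levi (fun x => Real.log (q x + 1)) x ξ := by
    intro x ξ
    by_cases hx : q x < r
    · have e1 : D.dbar f x ξ = f0 x * ((deriv χ (q x) : ℝ) * ∑ k, b k x *
          (starRingEnd ℂ) (fderiv ℂ (fun z => b k (D.sec x z)) (D.π x) ξ)) := by
        have a1 := F.dbar_holo_mul (hf x hx) (cs.diff x) ξ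
        have a2 := F.dbar_comp_real (χ := χ) (φ := fun z => q (D.sec x z)) (x := D.π x)
          (c1.differentiable (by simp) _) (qs.diff x) ξ
        have a3 := F.dbar_sum_normSq Finset.univ (f := fun k z => b k (D.sec x z))
          (fun k _ => hb k x) ξ
        simp only [D.sec_self] at a1 a2 a3
        rw [← a3, ← a2, ← a1]
        simp only [dbar, f, mul_comm]
      have l1 := F.le_levi_log_sos Finset.univ (f := fun k z => b k (D.sec x z))
        (fun k _ => ana (hb k) x) (e := 1) (by positivity) ξ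
      have l2 := F.norm_sum_mul_conj_sq_le Finset.univ (fun k => b k x)
        fun k => fderiv ℂ (fun z => b k (D.sec x z)) (D.π x) ξ
      simp only [D.sec_self] at l1
      set T : ℝ := ∑ k, ‖fderiv ℂ (fun z => b k (D.sec x z)) (D.π x) ξ‖ ^ 2 with hT
      have T0 : 0 ≤ T := by positivity
      by_cases hA : x ∈ A
      · have e2 : h x = C * ‖f0 x‖ ^ 2 := piecewise_eq_of_mem _ _ _ hA
        rw [e1, e2, norm_mul, norm_mul, mul_pow, mul_pow]
        refine le_trans ?_ (mul_le_mul_of_nonneg_left l1 (by positivity))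
        have d1 : ‖((deriv χ (q x) : ℝ) : ℂ)‖ ^ 2 ≤ M ^ 2 := by
          rw [norm_real, cd, norm_neg]
          exact pow_le_pow_left₀ (norm_nonneg _) (hM _) 2
        have d2 : 1 ≤ (r / 2 + 1) ^ 2 / (q x + 1) ^ 2 := by
          rw [one_le_div (by have := q0 x; positivity)]
          exact pow_le_pow_left₀ (by have := q0 x; positivity) (by linarith [hA.2]) 2
        calc _ ≤ ‖f0 x‖ ^ 2 * (M ^ 2 * (r / 2 * T)) := by
              gcongr
              exact l2.trans (mul_le_mul_of_nonneg_right hA.2 T0)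
          _ ≤ ‖f0 x‖ ^ 2 * (M ^ 2 * (r / 2 * T)) * ((r / 2 + 1) ^ 2 / (q x + 1) ^ 2) :=
              le_mul_of_one_le_right (by positivity) d2
          _ = _ := by rw [hC]; ring
      · have : deriv χ (q x) = 0 := by
          rw [cd, s8 _ (by simpa [A, not_and_or, imp_iff_not_or] using hA), neg_zero]
        rw [e1, this]
        simpa using mul_nonneg (h0 x) (eta.2 x ξ)
    · rw [dbar_congr (f_ev x (by linarith))]
      have : D.dbar (fun _ => 0) x ξ = 0 := F.dbar_const _ _ _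
      rw [this]
      simpa using mul_nonneg (h0 x) (eta.2 x ξ)
  have ex : ∀ x, Real.exp (Real.log (q x + 1)) = q x + 1 := fun x =>
    Real.exp_log (by have := q0 x; positivity)
  have lp : D.LP fun x => om x * q x ^ N :=
    hom.mul ((lp_sos Finset.univ fun k _ => hb k).pow N)
  have fin : ∫⁻ x, ENNReal.ofReal (h x) *
      (ENNReal.ofReal (om x * q x ^ N * Real.exp (Real.log (q x + 1))))⁻¹ ∂D.μ ≠ ⊤ := by
    refine ne_top_of_le_ne_top (ENNReal.mul_ne_top
      (a := ENNReal.ofReal (C * ((r / 4) ^ N)⁻¹)) ENNReal.ofReal_ne_top hI) ?_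
    rw [← lintegral_const_mul' _ _ ENNReal.ofReal_ne_top, ← lintegral_indicator To.measurableSet]
    refine lintegral_mono fun x => ?_
    by_cases hA : x ∈ A
    · have e2 : h x = C * ‖f0 x‖ ^ 2 := piecewise_eq_of_mem _ _ _ hA
      have p4 : 0 < (r / 4) ^ N := by positivity
      rw [indicator_of_mem (AT hA), e2, ex, ENNReal.ofReal_mul C0, ENNReal.ofReal_mul C0]
      have : (ENNReal.ofReal (om x * q x ^ N * (q x + 1)))⁻¹ ≤
          (ENNReal.ofReal (om x))⁻¹ * ENNReal.ofReal ((r / 4) ^ N)⁻¹ := by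
        rw [← ofReal_inv_mul (hom.nonneg x) p4]
        refine ENNReal.inv_le_inv.2 (ENNReal.ofReal_le_ofReal ?_)
        rw [mul_assoc]
        refine mul_le_mul_of_nonneg_left ?_ (hom.nonneg x)
        exact (pow_le_pow_left₀ (by positivity) hA.1 N).trans
          (le_mul_of_one_le_right (pow_nonneg (q0 x) N) (by linarith [q0 x]))
      calc _ ≤ ENNReal.ofReal C * ENNReal.ofReal (‖f0 x‖ ^ 2) *
            ((ENNReal.ofReal (om x))⁻¹ * ENNReal.ofReal ((r / 4) ^ N)⁻¹) := by gcongr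
        _ = _ := by ring
    · have e2 : h x = 0 := piecewise_eq_of_notMem _ _ _ hA
      rw [e2]
      simp
  obtain ⟨G, G1, G2⟩ := H.lp lp eta fs hm h0 key fin
  refine ⟨G, f, G1, fs.cont, fun x hx => by simp [f, χ, s3 (q x) hx], fun x => ?_, f_zero, ?_⟩
  · rw [norm_mul, norm_real, Real.norm_of_nonneg (sub_nonneg.2 (s7 _))]
    exact mul_le_of_le_one_left (norm_nonneg _) (sub_le_self _ (s6 _))
  · have := ne_top_of_le_ne_top fin G2
    simp only [ex] at this
    exact this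

/-- extension from `b = b0`; the price is the factor `(1 + |b - b0|²)^(w+1)` -/
theorem ext (H : D.HL) {om : S → ℝ} (hom : D.LP om) (e : κ ↪ ι) (b0 : κ → ℂ)
    {r : ℝ} (hr : 0 < r) {f0 : S → ℂ}
    (hf : ∀ x, ∑ k, ‖D.π x (e k) - b0 k‖ ^ 2 < r →
      DifferentiableAt ℂ (fun z => f0 (D.sec x z)) (D.π x))
    (hI : ∫⁻ x in {x | ∑ k, ‖D.π x (e k) - b0 k‖ ^ 2 < r},
      ENNReal.ofReal (‖f0 x‖ ^ 2) * (ENNReal.ofReal (om x))⁻¹ ∂D.μ ≠ ⊤) :
    ∃ F : S → ℂ, D.Hol F ∧ (∀ x, (∀ k, D.π x (e k) = b0 k) → F x = f0 x) ∧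
      ∫⁻ x, ENNReal.ofReal (‖F x‖ ^ 2) * (ENNReal.ofReal
        (om x * (∑ k, ‖D.π x (e k) - b0 k‖ ^ 2 + 1) ^ (Fintype.card κ + 1)))⁻¹ ∂D.μ ≠ ⊤ := by
  rcases isEmpty_or_nonempty κ with hκ | hκ
  · refine ⟨f0, fun x => hf x (by simpa using hr), fun _ _ => rfl, ?_⟩
    simpa [hr] using hI
  obtain ⟨G, f, G1, f1, f2, f3, f4, G2⟩ := ext_core H hom
    (b := fun k x => D.π x (e k) - b0 k) (fun k => hol_coord _ _) hr hf hI (Fintype.card κ)
  set q : S → ℝ := fun x => ∑ k, ‖D.π x (e k) - b0 k‖ ^ 2 with hq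
  set w := Fintype.card κ with hw
  have q0 : ∀ x, 0 ≤ q x := fun x => by positivity
  have qc : Continuous q := by
    have := D.cont_π
    fun_prop
  have om0 := hom.nonneg
  have omm := hom.measurable
  have m1 : Measurable fun x => ENNReal.ofReal (‖G x - f x‖ ^ 2) *
      (ENNReal.ofReal (om x * q x ^ w * (q x + 1)))⁻¹ := by
    have := G1.cont.measurable
    have := f1.measurable
    have := qc.measurable
    fun_prop
  refine ⟨G, G1, fun x hx => ?_, ?_⟩
  · have qx : q x = 0 := by simp [hq, hx]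
    obtain ⟨M, M0, hM⟩ := hom.bdd x
    have := vanish (D := D) e (g := fun y => G y - f y)
      (om := fun y => om y * q y ^ w * (q y + 1)) (x := x) (G1.cont.sub f1).continuousAt
      (M := M * 2) (by positivity) ?_ m1 (Eventually.of_forall fun _ => le_rfl) G2
    · rw [← f2 x (by show q x ≤ _; rw [qx]; positivity)]
      exact sub_eq_zero.1 this
    · filter_upwards [hM, qc.continuousAt.eventually (gt_mem_nhds (show q x < 1 by linarith))]
        with y h1 h2
      simp only [hx]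
      have := q0 y
      calc om y * q y ^ w * (q y + 1) ≤ M * q y ^ w * 2 := by gcongr; linarith
        _ = _ := by ring
  · have To : MeasurableSet {x | q x < r} := (isOpen_lt qc continuous_const).measurableSet
    refine ne_top_of_le_ne_top (ENNReal.add_ne_top.2
      ⟨ENNReal.mul_ne_top (a := 2) ENNReal.ofNat_ne_top G2,
      ENNReal.mul_ne_top (a := 2) ENNReal.ofNat_ne_top hI⟩) ?_
    rw [← lintegral_const_mul' _ _ ENNReal.ofNat_ne_top, ← lintegral_indicator To,
      ← lintegral_const_mul' _ _ ENNReal.ofNat_ne_top, ← lintegral_add_left (m1.const_mul 2)]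
    refine lintegral_mono fun x => ?_
    have n1 : ‖G x‖ ^ 2 ≤ 2 * ‖G x - f x‖ ^ 2 + 2 * ‖f x‖ ^ 2 := by
      have : ‖G x‖ ≤ ‖G x - f x‖ + ‖f x‖ := by simpa using norm_add_le (G x - f x) (f x)
      nlinarith [norm_nonneg (G x), sq_nonneg (‖G x - f x‖ - ‖f x‖), norm_nonneg (G x - f x),
        norm_nonneg (f x)]
    have n2 : ENNReal.ofReal (‖G x‖ ^ 2) ≤
        2 * ENNReal.ofReal (‖G x - f x‖ ^ 2) + 2 * ENNReal.ofReal (‖f x‖ ^ 2) := by
      refine (ENNReal.ofReal_le_ofReal n1).trans (le_of_eq ?_)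
      rw [ENNReal.ofReal_add (by positivity) (by positivity), ENNReal.ofReal_mul zero_le_two,
        ENNReal.ofReal_mul zero_le_two, ENNReal.ofReal_ofNat]
    have := q0 x
    have := om0 x
    have n3 : (ENNReal.ofReal (om x * (q x + 1) ^ (w + 1)))⁻¹ ≤
        (ENNReal.ofReal (om x * q x ^ w * (q x + 1)))⁻¹ := by
      refine ENNReal.inv_le_inv.2 (ENNReal.ofReal_le_ofReal ?_)
      rw [pow_succ, ← mul_assoc]
      gcongr
      linarith
    have n4 : (ENNReal.ofReal (om x * (q x + 1) ^ (w + 1)))⁻¹ ≤ (ENNReal.ofReal (om x))⁻¹ :=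
      ENNReal.inv_le_inv.2 (ENNReal.ofReal_le_ofReal
        (le_mul_of_one_le_right this (one_le_pow₀ (by linarith))))
    refine (mul_le_mul_left n2 _).trans ?_
    rw [add_mul, mul_assoc, mul_assoc]
    refine add_le_add (by gcongr) (mul_le_mul_right ?_ _)
    by_cases hx : q x < r
    · rw [indicator_of_mem (show x ∈ {x | q x < r} from hx)]
      gcongr
      exact f3 x
    · rw [f4 x (by show _ ≤ q x; linarith)]
      simp

end RD.WP

end

end Pool.Agent.Lib.MP_5c318e_ag
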