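import Pool.Agent.Lib.MP_5c318e_ag.W.FibRed
import Pool.Agent.Lib.MP_5c318e_ag.S.RAlg

/-! Slices of Riemann domains and of finite coverings; pointwise moderate growth. -/

set_option autoImplicit false
set_option linter.unusedSectionVars false

namespace Pool.Agent.Lib.MP_5c318e_ag

open MeasureTheory Set Filter Topology Fl Polynomial

noncomputable section

variable {ι ω γ : Type} [Fintype ι] [DecidableEq ι] [Fintype ω] [DecidableEq ω] [Fintype γ]
  [DecidableEq γ] {S : Type} [TopologicalSpace S] [MeasurableSpace S] [BorelSpace S] [T2Space S]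
  [SigmaCompactSpace S]

namespace FibLift

theorem int_fin {D : RD ι S} (C : D.Cov) :
    ∃ N : ℕ, ∫⁻ p, ENNReal.ofReal (1 / (1 + ‖D.π p‖ ^ 2) ^ N) ∂D.μ < ⊤ := by
  let N := Module.finrank ℝ (ι → ℂ) + 1
  let G : (ι → ℂ) → ENNReal := fun z => ENNReal.ofReal (1 / (1 + ‖z‖ ^ 2) ^ N)
  have Gm : Measurable G := by fun_prop
  have h1 : ∫⁻ z, G z < ⊤ := by
    have := (integrable_rpow_neg_one_add_norm_sq (E := ι → ℂ) (μ := volume) (r := 2 * N)
      (by simp only [N]; push_cast; linarith [Nat.cast_nonneg (α := ℝ) (Module.finrank ℝ (ι → ℂ))])).2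
    rw [hasFiniteIntegral_iff_ofReal (.of_forall fun z => by positivity)] at this
    convert this using 4 with z
    rw [show -(2 * (N : ℝ)) / 2 = -(N : ℝ) by ring, Real.rpow_neg (by positivity), Real.rpow_natCast,
      one_div]
  refine ⟨N, ?_⟩
  rw [D.lintegral_eq (F := fun p => G (D.π p)) (Gm.comp D.cont_π.measurable)]
  refine lt_of_le_of_lt (lintegral_mono (g := fun z => C.f.natDegree * G z) fun z => ?_) ?_
  · have e : ∀ y : D.π ⁻¹' {z}, G (D.π y) = G z := fun y => by rw [show D.π y = z from y.2]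
    simp only [e]
    rw [ENNReal.tsum_const]
    gcongr
    exact_mod_cast ENat.toENNReal_mono (C.card_le z)
  · rw [lintegral_const_mul _ Gm]
    exact ENNReal.mul_lt_top (by simp) h1

theorem mg_bound (g : MvPolynomial ι ℂ) (N : ℕ) : ∃ (B : ℝ) (L : ℕ), ∀ z, MvPolynomial.eval z g ≠ 0 →
    (mg g z * ‖MvPolynomial.eval z g‖) ^ N ≤ B * (1 + ‖z‖) ^ L := by
  obtain ⟨B, L, B0, hB⟩ := pl_mv g
  refine ⟨(1 + B) ^ N, (L + 1) * N, fun z hz => ?_⟩
  have n0 := norm_nonneg z
  have h1 := (hB (1 + ‖z‖) (by linarith) z z (by linarith) (by linarith)).1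
  have h2 : 1 ≤ (1 + ‖z‖) ^ L := one_le_pow₀ (by linarith)
  have h3 : mg g z * ‖MvPolynomial.eval z g‖ = (1 + ‖z‖) * (1 + ‖MvPolynomial.eval z g‖) := by
    have := norm_ne_zero_iff.2 hz
    rw [mg]; field_simp
  rw [h3, pow_mul, ← mul_pow]
  refine pow_le_pow_left₀ (by positivity) ?_ N
  rw [pow_succ]
  nlinarith

end FibLift

/-- polynomial growth off a hypersurface: algebraic, with denominators from `Δ` only -/
theorem RD.Cov.alg_poly {D : RD ι S} (C : D.Cov) {g : MvPolynomial ι ℂ} {u : S → ℂ}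
    (hu : ∀ p, MvPolynomial.eval (D.π p) g ≠ 0 → DifferentiableAt ℂ (fun z => u (D.sec p z)) (D.π p))
    {A : ℝ} {L : ℕ} (hb : ∀ p, MvPolynomial.eval (D.π p) g ≠ 0 → ‖u p‖ ≤ A * (1 + ‖D.π p‖) ^ L) :
    ∃ (P : (MvPolynomial ι ℂ)[X]) (j : ℕ), ∀ p, MvPolynomial.eval (D.π p) g ≠ 0 →
      u p * MvPolynomial.eval (D.π p) C.Δ ^ j = ev2 P (D.π p) (C.w p) := by
  rcases eq_or_ne g 0 with rfl | hg
  · exact ⟨0, 0, fun p hp => (hp (by simp)).elim⟩
  obtain ⟨N, hN⟩ := FibLift.int_fin C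
  refine C.alg hg hu 0 (L + N) ?_
  have Vm : MeasurableSet {p | MvPolynomial.eval (D.π p) g ≠ 0} :=
    ((Rat.isOpen_ne g).preimage D.cont_π).measurableSet
  refine lt_of_le_of_lt (setLIntegral_mono' Vm (g := fun p => ENNReal.ofReal (A ^ 2 * 2 ^ L) *
    ENNReal.ofReal (1 / (1 + ‖D.π p‖ ^ 2) ^ N)) fun p hp => ?_) ?_
  · rw [← ENNReal.ofReal_mul (by positivity)]
    refine ENNReal.ofReal_le_ofReal ?_
    have h1 := pow_le_pow_left₀ (norm_nonneg _) (hb p hp) 2
    have h2 : ((1 + ‖D.π p‖) ^ L) ^ 2 ≤ 2 ^ L * (1 + ‖D.π p‖ ^ 2) ^ L := by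
      rw [← mul_pow, ← pow_mul, mul_comm L, pow_mul]
      exact pow_le_pow_left₀ (by positivity) (by nlinarith [sq_nonneg (‖D.π p‖ - 1)]) L
    rw [mul_zero, pow_zero, mul_one, div_le_iff₀ (by positivity), pow_add]
    calc _ ≤ A ^ 2 * (2 ^ L * (1 + ‖D.π p‖ ^ 2) ^ L) := by
          rw [mul_pow] at h1
          exact h1.trans (by gcongr)
      _ = _ := by field_simp
  · refine lt_of_le_of_lt (setLIntegral_le_lintegral _ _) ?_
    rw [lintegral_const_mul' _ _ ENNReal.ofReal_ne_top]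
    exact ENNReal.mul_lt_top ENNReal.ofReal_lt_top hN

instance RD.slice_sigma (D : RD (ω ⊕ γ) S) (w0 : ω → ℂ) : SigmaCompactSpace {p // wc (D.π p) = w0} :=
  (isClosed_eq (continuous_pi fun i => (continuous_apply (Sum.inl i)).comp D.cont_π)
    continuous_const).sigmaCompactSpace

/-- the slice `w = w0` as a Riemann domain -/
theorem RD.exists_slice (D : RD (ω ⊕ γ) S) (w0 : ω → ℂ) : ∃ D' : RD γ {p // wc (D.π p) = w0},
    (∀ p, Sum.elim w0 (D'.π p) = D.π p) ∧
      ∀ p, (fun x => (D'.sec p x : S)) =ᶠ[𝓝 (D'.π p)] fun x => D.sec p (Sum.elim w0 x) := by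
  classical
  let π' : {p // wc (D.π p) = w0} → γ → ℂ := fun p i => D.π p (Sum.inr i)
  have e : ∀ p, Sum.elim w0 (π' p) = D.π p := fun p => by
    have := FibRed.elim_wc (D.π p)
    rwa [p.2] at this
  have cπ : Continuous π' := continuous_pi fun i =>
    (continuous_apply (Sum.inr i)).comp (D.cont_π.comp continuous_subtype_val)
  have ce := FibRed.continuous_elim (γ := γ) w0
  have hl : IsLocalHomeomorph π' := fun p => by
    let σ : (γ → ℂ) → {p // wc (D.π p) = w0} := fun x =>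
      if h : Sum.elim w0 x ∈ (D.ch p).target then ⟨D.sec p (Sum.elim w0 x), by rw [RD.π_sec h]; rfl⟩
      else p
    have hσ : ∀ x, Sum.elim w0 x ∈ (D.ch p).target → (σ x : S) = D.sec p (Sum.elim w0 x) :=
      fun x h => by simp only [σ, dif_pos h]
    refine ⟨{ toFun := π', invFun := σ
              source := Subtype.val ⁻¹' (D.ch p).source
              target := (fun x => Sum.elim w0 x) ⁻¹' (D.ch p).target
              map_source' := fun q hq => by
                rw [mem_preimage, e]; exact RD.π_mem hq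
              map_target' := fun x hx => by
                rw [mem_preimage, hσ x hx]; exact RD.sec_mem hx
              left_inv' := fun q hq => Subtype.ext (by
                rw [hσ _ (by rw [e]; exact RD.π_mem hq), e, RD.sec_π hq])
              right_inv' := fun x hx => by
                funext i
                simp only [π', hσ x hx, RD.π_sec hx, Sum.elim_inr]
              open_source := (D.ch p).open_source.preimage continuous_subtype_val
              open_target := (D.ch p).open_target.preimage ce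
              continuousOn_toFun := cπ.continuousOn
              continuousOn_invFun := by
                rw [Topology.IsInducing.subtypeVal.continuousOn_iff]
                exact ((D.sec_contOn p).comp ce.continuousOn fun x hx => hx).congr hσ },
      D.mem_src p, rfl⟩
  obtain ⟨D', hD⟩ := RD.exists_of π' hl
  refine ⟨D', fun p => by rw [hD, e], fun p => ?_⟩
  have h1 : ∀ᶠ q in 𝓝 p, q.1 ∈ (D.ch p).source :=
    continuous_subtype_val.continuousAt.eventually ((D.ch p).open_source.mem_nhds (D.mem_src p))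
  filter_upwards [(D'.tendsto_sec p).eventually h1, D'.π_sec_ev p] with x a b
  rw [← RD.sec_π a, ← e, ← hD, b]

theorem FibRed.ev2_sub (w : ω → ℂ) (x : γ → ℂ) (q : (MvPolynomial (ω ⊕ γ) ℂ)[X]) (s : ℂ) :
    ev2 (q.map (FibRed.sub (γ := γ) w).toRingHom) x s = ev2 q (Sum.elim w x) s := by
  rw [ev2, ev2, eval₂_map]
  congr 1
  exact RingHom.ext fun g => FibRed.eval_sub w x g

theorem FibRed.differentiable_elim (w : ω → ℂ) : Differentiable ℂ fun x : γ → ℂ => Sum.elim w x :=
  differentiable_pi.2 fun i => by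
    rcases i with i | i
    · exact differentiable_const _
    · exact differentiable_apply i

/-- a slice of a finite covering is a finite covering -/
theorem RD.Cov.slice {D : RD (ω ⊕ γ) S} (C : D.Cov) {w0 : ω → ℂ} (D' : RD γ {p // wc (D.π p) = w0})
    (h1 : ∀ p, Sum.elim w0 (D'.π p) = D.π p)
    (h2 : ∀ p, (fun x => (D'.sec p x : S)) =ᶠ[𝓝 (D'.π p)] fun x => D.sec p (Sum.elim w0 x))
    (h0 : FibRed.sub w0 C.Δ ≠ 0) : ∃ C' : D'.Cov, C'.f = C.f.map (FibRed.sub w0).toRingHom ∧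
      C'.Δ = FibRed.sub w0 C.Δ ∧ ∀ p, C'.w p = C.w p := by
  refine ⟨⟨C.f.map (FibRed.sub w0).toRingHom, FibRed.sub w0 C.Δ, fun p => C.w p, C.monic.map _, h0,
    fun p => ?_, fun p q a b => Subtype.ext (C.inj _ _ (by rw [← h1, ← h1, a]) b), fun a s => ?_, ?_⟩,
    rfl, rfl, fun _ => rfl⟩
  · refine DifferentiableAt.congr_of_eventuallyEq ?_ ((h2 p).mono fun z e => congrArg C.w e)
    exact DifferentiableAt.comp (g := fun z => C.w (D.sec p z)) _ (by rw [h1]; exact C.hol p)
      (FibRed.differentiable_elim w0 _)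
  · rw [FibRed.eval_sub, FibRed.ev2_sub, ← C.mem]
    constructor
    · rintro ⟨p, rfl, b⟩
      exact ⟨p, (h1 p).symm, b⟩
    · rintro ⟨p, b, c⟩
      refine ⟨⟨p, by rw [b]; rfl⟩, funext fun i => ?_, c⟩
      exact (congrFun (h1 ⟨p, by rw [b]; rfl⟩) (Sum.inr i)).trans (congrFun b _)
  · obtain ⟨A, B, j, e⟩ := C.cert
    refine ⟨A.map (FibRed.sub w0).toRingHom, B.map (FibRed.sub w0).toRingHom, j, ?_⟩
    rw [derivative_map, ← Polynomial.map_mul, ← Polynomial.map_mul, ← Polynomial.map_add, e, map_C]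
    simp

/-- moderate growth on a slice -/
theorem RD.Cov.alg_slice {D : RD (ω ⊕ γ) S} (C : D.Cov) (g : MvPolynomial (ω ⊕ γ) ℂ) (w0 : ω → ℂ)
    {u : S → ℂ} (hu : ∀ p, wc (D.π p) = w0 → MvPolynomial.eval (D.π p) g ≠ 0 →
      DifferentiableAt ℂ (fun x : γ → ℂ => u (D.sec p (Sum.elim w0 x))) fun i => D.π p (Sum.inr i))
    {A : ℝ} {L : ℕ} (hb : ∀ p, wc (D.π p) = w0 → MvPolynomial.eval (D.π p) g ≠ 0 →
      ‖u p‖ ≤ A * (1 + ‖D.π p‖) ^ L) :
    ∃ (P : (MvPolynomial (ω ⊕ γ) ℂ)[X]) (j : ℕ), ∀ p, wc (D.π p) = w0 →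
      MvPolynomial.eval (D.π p) g ≠ 0 →
        u p * MvPolynomial.eval (D.π p) C.Δ ^ j = ev2 P (D.π p) (C.w p) := by
  obtain ⟨D', h1, h2⟩ := D.exists_slice w0
  rcases eq_or_ne (FibRed.sub w0 C.Δ) 0 with h0 | h0
  · refine ⟨0, 0, fun p hp _ => (C.Δ_ne p ?_).elim⟩
    rw [← h1 ⟨p, hp⟩, ← FibRed.eval_sub, h0, map_zero]
  obtain ⟨C', -, e2, e3⟩ := C.slice D' h1 h2 h0
  have e4 : ∀ (p : {p // wc (D.π p) = w0}) q, MvPolynomial.eval (D'.π p) (FibRed.sub w0 q) =
      MvPolynomial.eval (D.π p) q := fun p q => by rw [FibRed.eval_sub, h1]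
  have e5 : ∀ p : {p // wc (D.π p) = w0}, D'.π p = fun i => D.π p (Sum.inr i) := fun p =>
    funext fun i => congrFun (h1 p) (Sum.inr i)
  obtain ⟨P, j, hP⟩ := C'.alg_poly (g := FibRed.sub w0 g) (u := fun p => u p) (fun p hp => by
    refine DifferentiableAt.congr_of_eventuallyEq ?_ ((h2 p).mono fun z e => congrArg u e)
    rw [e5]
    exact hu p p.2 (e4 p g ▸ hp)) (A := |A| * (1 + ‖w0‖) ^ L) (L := L) fun p hp => by
      refine (hb p p.2 (e4 p g ▸ hp)).trans ?_
      rw [mul_assoc, ← mul_pow]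
      have n1 : ‖D.π p‖ ≤ ‖w0‖ + ‖D'.π p‖ := by
        rw [← h1]
        refine (pi_norm_le_iff_of_nonneg (by positivity)).2 fun i => ?_
        rcases i with i | i
        · exact (norm_le_pi_norm w0 i).trans (le_add_of_nonneg_right (norm_nonneg _))
        · exact (norm_le_pi_norm (D'.π p) i).trans (le_add_of_nonneg_left (norm_nonneg _))
      refine mul_le_mul (le_abs_self A) (pow_le_pow_left₀ (by positivity) ?_ L) (by positivity)
        (abs_nonneg A)
      nlinarith [norm_nonneg w0, norm_nonneg (D'.π p)]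
  refine ⟨P.map (MvPolynomial.rename Sum.inr : _ →ₐ[ℂ] MvPolynomial (ω ⊕ γ) ℂ), j, fun p hp hg => ?_⟩
  have := hP ⟨p, hp⟩ (by rw [e4]; exact hg)
  rw [e2, e3, e4, e5] at this
  rw [this, ev2, ev2, eval₂_map]
  congr 1
  exact RingHom.ext fun q => (MvPolynomial.eval_rename _ _ _).symm

end

end Pool.Agent.Lib.MP_5c318e_ag
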