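import Pool.Agent.Lib.MP_5c318e_ag.W.ExtQ

/-! Iterated extension from a tube: `L^(2p)` bounds with constants that depend only on the tube. -/

set_option autoImplicit false
set_option linter.unusedSectionVars false

namespace Pool.Agent.Lib.MP_5c318e_ag

open MeasureTheory Set Filter Topology
open scoped ENNReal

noncomputable section

namespace RD.WP

/-- Hoelder with an extra weight -/
theorem holder_wt {X : Type*} [MeasurableSpace X] {μ : Measure X} {a a' A ρ : X → ℝ≥0∞}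
    (ma : Measurable a) (ma' : Measurable a') (mA : Measurable A) (mρ : Measurable ρ)
    (ha : ∀ x, a x ≠ ⊤) (ha' : ∀ x, a' x ≠ ⊤) (hA : ∀ x, A x ≠ 0) {p : ℝ} (h0 : 0 < p) (h1 : p < 1)
    (hL : ∫⁻ x, a' x ^ (2 : ℝ) * a x ^ (-(2 * (1 - p))) * A x ∂μ ≠ ⊤) :
    ∫⁻ x, a' x ^ (2 * p) * A x * ρ x ^ (1 - p) ∂μ ≤
      (∫⁻ x, a' x ^ (2 : ℝ) * a x ^ (-(2 * (1 - p))) * A x ∂μ) ^ p *
        (∫⁻ x, a x ^ (2 * p) * A x * ρ x ∂μ) ^ (1 - p) := by
  have q0 : 0 < 1 - p := sub_pos.2 h1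
  have m1 : Measurable fun x => a' x ^ (2 : ℝ) * a x ^ (-(2 * (1 - p))) * A x :=
    ((ma'.pow_const _).mul (ma.pow_const _)).mul mA
  have m2 : Measurable fun x => a x ^ (2 * p) * A x * ρ x := ((ma.pow_const _).mul mA).mul mρ
  refine le_trans (lintegral_mono_ae ((ae_lt_top m1 hL).mono fun x hx => ?_))
    (ENNReal.lintegral_mul_norm_pow_le m1.aemeasurable m2.aemeasurable h0.le q0.le
      (add_sub_cancel p 1))
  have := Ex.holder_pt (ha x) (ha' x) (hA x) q0 (by linarith) hx.ne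
  rw [sub_sub_cancel] at this
  rw [ENNReal.mul_rpow_of_nonneg _ (ρ x) q0.le, ← mul_assoc]
  exact mul_le_mul_left this _

variable {ι κ : Type} [Fintype ι] [Fintype κ]
variable {S : Type} [TopologicalSpace S] [MeasurableSpace S] [BorelSpace S] {D : RD ι S}

/-- one step from the part `T` of the tube -/
theorem stepq (H : D.HL) {u : S → ℝ} (hu : D.LP u) (e : κ ↪ ι) (b0 : κ → ℂ) {r M : ℝ} (hr : 0 < r)
    (hS : StepBd r M) {T : Set S} (hT : MeasurableSet T)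
    (hs : ∀ x, ∑ k, ‖D.π x (e k) - b0 k‖ ^ 2 < r → ∀ᶠ y in 𝓝 x, (y ∈ T ↔ x ∈ T))
    {p : ℝ} (h1 : p ≤ 1) {U : S → ℂ} (hU : D.Hol U)
    (h : ∫⁻ x in T, ‖U x‖ₑ ^ (2 * p) * (ENNReal.ofReal (u x))⁻¹ ∂D.μ ≠ ⊤) :
    ∃ F : S → ℂ, D.Hol F ∧ (∀ x ∈ T, (∀ k, D.π x (e k) = b0 k) → F x = U x) ∧
      ∫⁻ x, ‖F x‖ₑ ^ (2 : ℝ) * ‖U x‖ₑ ^ (-(2 * (1 - p))) * (ENNReal.ofReal
        (u x * (∑ k, ‖D.π x (e k) - b0 k‖ ^ 2 + 1) ^ (Fintype.card κ + 1)))⁻¹ ∂D.μ ≤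
        cE (Fintype.card κ) r M *
          ∫⁻ x in T, ‖U x‖ₑ ^ (2 * p) * (ENNReal.ofReal (u x))⁻¹ ∂D.μ := by
  classical
  have q0 : 0 ≤ 1 - p := sub_nonneg.2 h1
  have hom : D.LP fun x => (‖U x‖ ^ 2) ^ (1 - p) * u x := ((lp_normSq hU).rpow q0).mul hu
  have iw : ∀ (x : S) (v : ℝ), (ENNReal.ofReal ((‖U x‖ ^ 2) ^ (1 - p) * v))⁻¹ =
      ‖U x‖ₑ ^ (-(2 * (1 - p))) * (ENNReal.ofReal v)⁻¹ := fun x v => by
    simpa using inv_wt (U x) 1 q0 le_rfl v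
  have le : ∫⁻ x in {x | ∑ k, ‖D.π x (e k) - b0 k‖ ^ 2 < r}, ENNReal.ofReal (‖T.indicator U x‖ ^ 2) *
      (ENNReal.ofReal ((‖U x‖ ^ 2) ^ (1 - p) * u x))⁻¹ ∂D.μ ≤
      ∫⁻ x in T, ‖U x‖ₑ ^ (2 * p) * (ENNReal.ofReal (u x))⁻¹ ∂D.μ := by
    rw [← lintegral_indicator hT]
    refine (setLIntegral_le_lintegral _ _).trans (lintegral_mono fun x => ?_)
    by_cases hx : x ∈ T
    · rw [indicator_of_mem hx, indicator_of_mem hx, iw, ofReal_sq, ← mul_assoc]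
      refine mul_le_mul_left ((rpow_mul_neg_le _ _).trans_eq ?_) _
      congr 1; ring
    · simp [indicator_of_notMem hx]
  obtain ⟨F, F1, F2, F3⟩ := extq H hom e b0 hr hS (f0 := T.indicator U) (fun x hx => by
    have ev := (D.tendsto_sec x).eventually (hs x hx)
    by_cases hxT : x ∈ T
    · exact (hU x).congr_of_eventuallyEq (ev.mono fun z hz => indicator_of_mem (hz.2 hxT) U)
    · exact (differentiableAt_const (0 : ℂ)).congr_of_eventuallyEq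
        (ev.mono fun z hz => indicator_of_notMem (fun h => hxT (hz.1 h)) U))
    (ne_top_of_le_ne_top h le)
  refine ⟨F, F1, fun x hx hb => (F2 x hb).trans (indicator_of_mem hx U),
    le_trans (le_of_eq (lintegral_congr fun x => ?_)) (F3.trans (mul_le_mul_right le _))⟩
  rw [mul_assoc _ (u x), iw, ofReal_sq, mul_assoc]

/-- the constant of the iteration -/
def cI (w : ℕ) (r M R : ℝ) : ℝ≥0∞ := cE w r M * ENNReal.ofReal ((|R| + 1) ^ (w + 1))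

theorem cE_le_cI (w : ℕ) (r M R : ℝ) : cE w r M ≤ cI w r M R :=
  le_mul_of_one_le_right' (ENNReal.one_le_ofReal.2 (one_le_pow₀ (by linarith [abs_nonneg R])))

theorem one_le_cI (w : ℕ) (r M R : ℝ) : 1 ≤ cI w r M R := (one_le_cE w r M).trans (cE_le_cI w r M R)

theorem cI_ne_top (w : ℕ) (r M R : ℝ) : cI w r M R ≠ ⊤ :=
  ENNReal.mul_ne_top (cE_ne_top w r M) ENNReal.ofReal_ne_top

/-- `n` steps -/
theorem iter (H : D.HL) {u : S → ℝ} (hu : D.LP u) (e : κ ↪ ι) (b0 : κ → ℂ) {r M R : ℝ} (hr : 0 < r)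
    (hS : StepBd r M) {T : Set S} (hT : MeasurableSet T)
    (hs : ∀ x, ∑ k, ‖D.π x (e k) - b0 k‖ ^ 2 < r → ∀ᶠ y in 𝓝 x, (y ∈ T ↔ x ∈ T))
    (hR : ∀ x ∈ T, ∑ k, ‖D.π x (e k) - b0 k‖ ^ 2 ≤ R)
    {p : ℝ} (h0 : 0 < p) (h1 : p < 1) {U : S → ℂ} (hU : D.Hol U)
    (h : ∫⁻ x in T, ‖U x‖ₑ ^ (2 * p) * (ENNReal.ofReal (u x))⁻¹ ∂D.μ ≠ ⊤)
    {ρ : S → ℝ≥0∞} (hρ : Measurable ρ) (n : ℕ) :
    ∃ F : S → ℂ, D.Hol F ∧ (∀ x ∈ T, (∀ k, D.π x (e k) = b0 k) → F x = U x) ∧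
      ∫⁻ x in T, ‖F x‖ₑ ^ (2 * p) * (ENNReal.ofReal (u x))⁻¹ ∂D.μ ≤
        cI (Fintype.card κ) r M R ^ n *
          ∫⁻ x in T, ‖U x‖ₑ ^ (2 * p) * (ENNReal.ofReal (u x))⁻¹ ∂D.μ ∧
      ∫⁻ x, ‖F x‖ₑ ^ (2 * p) * (ENNReal.ofReal (u x *
        (∑ k, ‖D.π x (e k) - b0 k‖ ^ 2 + 1) ^ (Fintype.card κ + 1)))⁻¹ * ρ x ^ ((1 - p) ^ n) ∂D.μ ≤
        max 1 (cI (Fintype.card κ) r M R ^ n *
          ∫⁻ x in T, ‖U x‖ₑ ^ (2 * p) * (ENNReal.ofReal (u x))⁻¹ ∂D.μ) *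
        (∫⁻ x, ‖U x‖ₑ ^ (2 * p) * (ENNReal.ofReal (u x *
          (∑ k, ‖D.π x (e k) - b0 k‖ ^ 2 + 1) ^ (Fintype.card κ + 1)))⁻¹ * ρ x ∂D.μ) ^
            ((1 - p) ^ n) := by
  set C := cI (Fintype.card κ) r M R with hC
  set T0 := ∫⁻ x in T, ‖U x‖ₑ ^ (2 * p) * (ENNReal.ofReal (u x))⁻¹ ∂D.μ with hT0
  set q : S → ℝ := fun x => ∑ k, ‖D.π x (e k) - b0 k‖ ^ 2 with hq
  set I0 := ∫⁻ x, ‖U x‖ₑ ^ (2 * p) * (ENNReal.ofReal (u x *
    (q x + 1) ^ (Fintype.card κ + 1)))⁻¹ * ρ x ∂D.μ with hI0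
  have C1 : 1 ≤ C := one_le_cI _ _ _ _
  have Ct : C ≠ ⊤ := cI_ne_top _ _ _ _
  have q0 : 0 < 1 - p := sub_pos.2 h1
  have qc : Continuous q := by
    have := D.cont_π
    fun_prop
  have mu : Measurable fun x => (ENNReal.ofReal (u x))⁻¹ := hu.measurable.ennreal_ofReal.inv
  have mA : Measurable fun x => (ENNReal.ofReal (u x * (q x + 1) ^ (Fintype.card κ + 1)))⁻¹ :=
    (hu.measurable.mul ((qc.measurable.add_const 1).pow_const _)).ennreal_ofReal.inv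
  induction n with
  | zero =>
    refine ⟨U, hU, fun _ _ _ => rfl, by rw [pow_zero, one_mul], ?_⟩
    simp only [pow_zero, ENNReal.rpow_one]
    exact le_mul_of_one_le_left' (le_max_left _ _)
  | succ n ih =>
    obtain ⟨G, G1, G2, G3, G4⟩ := ih
    set TG := ∫⁻ x in T, ‖G x‖ₑ ^ (2 * p) * (ENNReal.ofReal (u x))⁻¹ ∂D.μ with hTG
    have tG : TG ≠ ⊤ := ne_top_of_le_ne_top (ENNReal.mul_ne_top (ENNReal.pow_ne_top Ct) h) G3
    obtain ⟨F, F1, F2, F3⟩ := stepq H hu e b0 hr hS hT hs h1.le G1 tG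
    have mG := G1.cont.measurable.enorm
    have mF := F1.cont.measurable.enorm
    have W : ∫⁻ x in T, ‖F x‖ₑ ^ (2 : ℝ) * ‖G x‖ₑ ^ (-(2 * (1 - p))) *
        (ENNReal.ofReal (u x))⁻¹ ∂D.μ ≤ C * TG := by
      rw [hC, cI, mul_comm (cE _ _ _), mul_assoc]
      refine le_trans ?_ (mul_le_mul_right F3 _)
      rw [← lintegral_const_mul' _ _ ENNReal.ofReal_ne_top]
      refine le_trans (setLIntegral_mono' hT fun x hx => ?_) (setLIntegral_le_lintegral T _)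
      rw [mul_left_comm]
      refine mul_le_mul_right ?_ _
      have p : 0 < (q x + 1) ^ (Fintype.card κ + 1) := by positivity
      rw [ENNReal.ofReal_mul (hu.nonneg x), ENNReal.mul_inv (Or.inr ENNReal.ofReal_ne_top)
        (Or.inl ENNReal.ofReal_ne_top), mul_left_comm]
      refine le_mul_of_one_le_right' ?_
      rw [← div_eq_mul_inv, ENNReal.le_div_iff_mul_le (Or.inl (ENNReal.ofReal_pos.2 p).ne')
        (Or.inl ENNReal.ofReal_ne_top), one_mul]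
      exact ENNReal.ofReal_le_ofReal (pow_le_pow_left₀ (by positivity)
        (by linarith [hR x hx, le_abs_self R]) _)
    have split : ∀ X : ℝ≥0∞, X ^ p * X ^ (1 - p) = X := fun X => by
      rw [← ENNReal.rpow_add_of_nonneg _ _ h0.le q0.le, add_sub_cancel, ENNReal.rpow_one]
    have step : C * TG ≤ C ^ (n + 1) * T0 := by
      rw [pow_succ', mul_assoc]; exact mul_le_mul_right G3 _
    refine ⟨F, F1, fun x hx hb => (F2 x hx hb).trans (G2 x hx hb), ?_, ?_⟩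
    · have := holder_wt (μ := D.μ.restrict T) (ρ := fun _ => 1) mG mF mu measurable_const
        (fun _ => enorm_ne_top) (fun _ => enorm_ne_top)
        (fun _ => ENNReal.inv_ne_zero.2 ENNReal.ofReal_ne_top) h0 h1
        (ne_top_of_le_ne_top (ENNReal.mul_ne_top Ct tG) W)
      simp only [ENNReal.one_rpow, mul_one] at this
      refine this.trans (le_trans ?_ ((split _).le.trans step))
      exact mul_le_mul' (ENNReal.rpow_le_rpow W h0.le)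
        (ENNReal.rpow_le_rpow (le_mul_of_one_le_left' C1) q0.le)
    · have F4 := F3.trans (mul_le_mul_left (cE_le_cI _ r M R) _)
      have := holder_wt (μ := D.μ) (ρ := fun x => ρ x ^ ((1 - p) ^ n)) mG mF mA (hρ.pow_const _)
        (fun _ => enorm_ne_top) (fun _ => enorm_ne_top)
        (fun _ => ENNReal.inv_ne_zero.2 ENNReal.ofReal_ne_top) h0 h1
        (ne_top_of_le_ne_top (ENNReal.mul_ne_top Ct tG) F4)
      simp only [← ENNReal.rpow_mul, ← pow_succ] at this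
      refine this.trans ?_
      have m1 : max 1 (C ^ n * T0) ≤ max 1 (C ^ (n + 1) * T0) :=
        max_le_max_left _ (mul_le_mul_left (pow_le_pow_right₀ C1 n.le_succ) _)
      calc _ ≤ max 1 (C ^ (n + 1) * T0) ^ p *
            (max 1 (C ^ (n + 1) * T0) * I0 ^ ((1 - p) ^ n)) ^ (1 - p) :=
            mul_le_mul' (ENNReal.rpow_le_rpow ((F4.trans step).trans (le_max_right _ _)) h0.le)
              (ENNReal.rpow_le_rpow (G4.trans (mul_le_mul_left m1 _)) q0.le)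
        _ = _ := by
            rw [ENNReal.mul_rpow_of_nonneg _ _ q0.le, ← mul_assoc, split, ← ENNReal.rpow_mul,
              ← pow_succ]

end RD.WP

end

end Pool.Agent.Lib.MP_5c318e_ag
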